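import Mathlib

/-!
Minimal dominating sets of induced subgraphs `G[W]` and the reconfiguration relation between them.
-/

namespace Pool.Q273.MDR

open Finset Classical

variable {V : Type*}

section defs
variable (G : SimpleGraph V)

/-- `M` dominates every vertex of `W`. -/
def Dom (M W : Finset V) : Prop := ∀ w ∈ W, w ∈ M ∨ ∃ m ∈ M, G.Adj m w

/-- `M` is a minimal dominating set of the subgraph induced on `W`. -/
def IsM (W M : Finset V) : Prop := M ⊆ W ∧ Dom G M W ∧ ∀ v ∈ M, ¬ Dom G (M.erase v) W

/-- `N` arises from `M` by adding one vertex `v` and removing neighbours of `v`. -/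
def R1 (M N : Finset V) : Prop := ∃ v, N \ M = {v} ∧ ∀ x ∈ M \ N, G.Adj v x

/-- expansion or contraction -/
def Rel (M N : Finset V) : Prop := R1 G M N ∨ R1 G N M

/-- delete the closed neighbourhood of `v` -/
noncomputable def del (v : V) (W : Finset V) : Finset V := W.filter (fun w => w ≠ v ∧ ¬ G.Adj v w)

/-- all edges inside `W` contain the same vertex `c` -/
def Star (W : Finset V) : Prop := ∃ c : V, ∀ x ∈ W, ∀ y ∈ W, G.Adj x y → x = c ∨ y = c

/-- the reconfiguration graph of `G[W]` has a closed trail of length 3, 4 or 5 -/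
def Short (W : Finset V) : Prop :=
  (∃ a b c, IsM G W a ∧ IsM G W b ∧ IsM G W c ∧ Rel G a b ∧ Rel G b c ∧ Rel G c a) ∨
  (∃ a b c d, IsM G W a ∧ IsM G W b ∧ IsM G W c ∧ IsM G W d ∧
    Rel G a b ∧ Rel G b c ∧ Rel G c d ∧ Rel G d a ∧ a ≠ c ∧ b ≠ d) ∨
  (∃ a b c d e, IsM G W a ∧ IsM G W b ∧ IsM G W c ∧ IsM G W d ∧ IsM G W e ∧
    Rel G a b ∧ Rel G b c ∧ Rel G c d ∧ Rel G d e ∧ Rel G e a)

end defs

variable {G : SimpleGraph V}

lemma Rel.symm {M N : Finset V} (h : Rel G M N) : Rel G N M := Or.symm h

lemma R1.intro {M N : Finset V} (v : V) (h1 : v ∈ N) (h2 : v ∉ M)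
    (h3 : ∀ x ∈ N, x ≠ v → x ∈ M) (h4 : ∀ x ∈ M, x ∉ N → G.Adj v x) : R1 G M N := by
  refine ⟨v, ?_, ?_⟩
  · ext x
    simp only [mem_sdiff, mem_singleton]
    constructor
    · rintro ⟨hx, hx'⟩
      by_contra hne
      exact hx' (h3 x hx hne)
    · rintro rfl
      exact ⟨h1, h2⟩
  · intro x hx
    rw [mem_sdiff] at hx
    exact h4 x hx.1 hx.2

lemma mem_del {v w : V} {W : Finset V} : w ∈ del G v W ↔ w ∈ W ∧ w ≠ v ∧ ¬ G.Adj v w := by
  simp [del]

lemma del_subset {v : V} {W : Finset V} : del G v W ⊆ W := filter_subset _ _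

lemma isM_of_indep {W I : Finset V} (h1 : I ⊆ W) (h2 : ∀ x ∈ I, ∀ y ∈ I, ¬ G.Adj x y)
    (h3 : Dom G I W) : IsM G W I := by
  refine ⟨h1, h3, fun v hv hd => ?_⟩
  rcases hd v (h1 hv) with h | ⟨m, hm, hm'⟩
  · simp at h
  · exact h2 m (mem_of_mem_erase hm) v hv hm'

lemma isM_pair {W : Finset V} {x y : V} (hx : x ∈ W) (hy : y ∈ W) (hxy : x ≠ y)
    (hd : Dom G {x, y} W) (h1 : ∃ w ∈ W, w ≠ y ∧ ¬ G.Adj y w) (h2 : ∃ w ∈ W, w ≠ x ∧ ¬ G.Adj x w) :
    IsM G W {x, y} := by
  refine ⟨?_, hd, ?_⟩
  · intro z hz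
    simp only [mem_insert, mem_singleton] at hz
    rcases hz with rfl | rfl <;> assumption
  · intro v hv hd'
    simp only [mem_insert, mem_singleton] at hv
    rcases hv with rfl | rfl
    · obtain ⟨w, hw, hw1, hw2⟩ := h1
      rcases hd' w hw with h | ⟨m, hm, hm'⟩
      · simp only [mem_erase, mem_insert, mem_singleton] at h
        rcases h with ⟨h, h' | h'⟩
        · exact h h'
        · exact hw1 h'
      · simp only [mem_erase, mem_insert, mem_singleton] at hm
        rcases hm with ⟨h, h' | h'⟩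
        · exact h h'
        · rw [h'] at hm'; exact hw2 hm'
    · obtain ⟨w, hw, hw1, hw2⟩ := h2
      rcases hd' w hw with h | ⟨m, hm, hm'⟩
      · simp only [mem_erase, mem_insert, mem_singleton] at h
        rcases h with ⟨h, h' | h'⟩
        · exact hw1 h'
        · exact h h'
      · simp only [mem_erase, mem_insert, mem_singleton] at hm
        rcases hm with ⟨h, h' | h'⟩
        · rw [h'] at hm'; exact hw2 hm'
        · exact h h'

/-- every independent set is contained in a maximal independent set, which is a minimal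
dominating set -/
lemma exists_mis {W I : Finset V} (h1 : I ⊆ W) (h2 : ∀ x ∈ I, ∀ y ∈ I, ¬ G.Adj x y) :
    ∃ J, I ⊆ J ∧ (∀ x ∈ J, ∀ y ∈ J, ¬ G.Adj x y) ∧ J ⊆ W ∧ IsM G W J := by
  let S : Finset (Finset V) := W.powerset.filter
    (fun J => I ⊆ J ∧ ∀ x ∈ J, ∀ y ∈ J, ¬ G.Adj x y)
  have hI : I ∈ S := by simp [S, h1]; exact h2
  obtain ⟨J, hJ, hmax⟩ := Finset.exists_max_image S Finset.card ⟨I, hI⟩
  simp only [S, mem_filter, mem_powerset] at hJ
  obtain ⟨hJW, hIJ, hJi⟩ := hJ
  refine ⟨J, hIJ, hJi, hJW, isM_of_indep hJW hJi ?_⟩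
  intro w hw
  by_contra hcon
  push Not at hcon
  obtain ⟨hwJ, hadj⟩ := hcon
  have hmem : insert w J ∈ S := by
    simp only [S, mem_filter, mem_powerset]
    refine ⟨insert_subset hw hJW, hIJ.trans (subset_insert _ _), ?_⟩
    intro x hx y hy hxy
    rw [mem_insert] at hx hy
    rcases hx with rfl | hx <;> rcases hy with rfl | hy
    · exact G.loopless.irrefl _ hxy
    · exact hadj y hy hxy.symm
    · exact hadj x hx hxy
    · exact hJi x hx y hy hxy
  have := hmax _ hmem
  rw [card_insert_of_notMem hwJ] at this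
  omega

lemma isM_lift {W M : Finset V} {v : V} (hv : v ∈ W) (h : IsM G (del G v W) M) :
    IsM G W (insert v M) := by
  obtain ⟨h1, h2, h3⟩ := h
  have hvM : v ∉ M := fun hh => (mem_del.1 (h1 hh)).2.1 rfl
  have hvn : ∀ m ∈ M, ¬ G.Adj v m := fun m hm => (mem_del.1 (h1 hm)).2.2
  refine ⟨insert_subset hv (h1.trans del_subset), ?_, ?_⟩
  · intro w hw
    by_cases hwv : w = v
    · left; simp [hwv]
    by_cases hadj : G.Adj v w
    · right; exact ⟨v, by simp, hadj⟩
    rcases h2 w (mem_del.2 ⟨hw, hwv, hadj⟩) with h | ⟨m, hm, hm'⟩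
    · left; simp [h]
    · right; exact ⟨m, by simp [hm], hm'⟩
  · intro u hu hd
    rw [mem_insert] at hu
    rcases hu with rfl | hu
    · rw [erase_insert hvM] at hd
      rcases hd u hv with h | ⟨m, hm, hm'⟩
      · exact hvM h
      · exact hvn m hm hm'.symm
    · apply h3 u hu
      intro w hw
      have hw' := mem_del.1 hw
      rcases hd w hw'.1 with h | ⟨m, hm, hm'⟩
      · left
        simp only [mem_erase, mem_insert] at h ⊢
        exact ⟨h.1, h.2.resolve_left hw'.2.1⟩
      · right
        simp only [mem_erase, mem_insert] at hm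
        refine ⟨m, ?_, hm'⟩
        simp only [mem_erase]
        refine ⟨hm.1, hm.2.resolve_left ?_⟩
        rintro rfl
        exact hw'.2.2 hm'

lemma r1_lift {M N : Finset V} {v : V} (hM : v ∉ M) (hN : v ∉ N) (h : R1 G M N) :
    R1 G (insert v M) (insert v N) := by
  obtain ⟨u, h1, h2⟩ := h
  have key : ∀ {A B : Finset V}, v ∉ A → insert v A \ insert v B = A \ B := by
    intro A B hA
    ext x
    simp only [mem_sdiff, mem_insert, not_or]
    constructor
    · rintro ⟨h | h, h', h''⟩
      · exact absurd h h'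
      · exact ⟨h, h''⟩
    · rintro ⟨h, h'⟩
      refine ⟨Or.inr h, ?_, h'⟩
      rintro rfl
      exact hA h
  refine ⟨u, ?_, ?_⟩
  · rw [key hN, h1]
  · intro x hx
    rw [key hM] at hx
    exact h2 x hx

lemma rel_lift {M N : Finset V} {v : V} (hM : v ∉ M) (hN : v ∉ N) (h : Rel G M N) :
    Rel G (insert v M) (insert v N) :=
  h.elim (fun h => Or.inl (r1_lift hM hN h)) (fun h => Or.inr (r1_lift hN hM h))

lemma notMem_of_isM_del {W M : Finset V} {v : V} (h : IsM G (del G v W) M) : v ∉ M :=
  fun hh => (mem_del.1 (h.1 hh)).2.1 rfl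

lemma short_lift {W : Finset V} {v : V} (hv : v ∈ W) (h : Short G (del G v W)) : Short G W := by
  rcases h with ⟨a, b, c, ha, hb, hc, h1, h2, h3⟩ |
    ⟨a, b, c, d, ha, hb, hc, hd, h1, h2, h3, h4, h5, h6⟩ |
    ⟨a, b, c, d, e, ha, hb, hc, hd, he, h1, h2, h3, h4, h5⟩
  · left
    have ha' := notMem_of_isM_del ha
    have hb' := notMem_of_isM_del hb
    have hc' := notMem_of_isM_del hc
    exact ⟨_, _, _, isM_lift hv ha, isM_lift hv hb, isM_lift hv hc, rel_lift ha' hb' h1,
      rel_lift hb' hc' h2, rel_lift hc' ha' h3⟩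
  · right; left
    have ha' := notMem_of_isM_del ha
    have hb' := notMem_of_isM_del hb
    have hc' := notMem_of_isM_del hc
    have hd' := notMem_of_isM_del hd
    refine ⟨_, _, _, _, isM_lift hv ha, isM_lift hv hb, isM_lift hv hc, isM_lift hv hd,
      rel_lift ha' hb' h1, rel_lift hb' hc' h2, rel_lift hc' hd' h3, rel_lift hd' ha' h4, ?_, ?_⟩
    · intro hh
      apply h5
      rw [← erase_insert ha', ← erase_insert hc', hh]
    · intro hh
      apply h6
      rw [← erase_insert hb', ← erase_insert hd', hh]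
  · right; right
    have ha' := notMem_of_isM_del ha
    have hb' := notMem_of_isM_del hb
    have hc' := notMem_of_isM_del hc
    have hd' := notMem_of_isM_del hd
    have he' := notMem_of_isM_del he
    exact ⟨_, _, _, _, _, isM_lift hv ha, isM_lift hv hb, isM_lift hv hc, isM_lift hv hd,
      isM_lift hv he, rel_lift ha' hb' h1, rel_lift hb' hc' h2, rel_lift hc' hd' h3,
      rel_lift hd' he' h4, rel_lift he' ha' h5⟩

lemma Star.no_tri {W : Finset V} (h : Star G W) {x y z : V} (hx : x ∈ W) (hy : y ∈ W)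
    (hz : z ∈ W) (h1 : G.Adj x y) (h2 : G.Adj y z) (h3 : G.Adj x z) : False := by
  obtain ⟨c, hc⟩ := h
  have hxy := h1.ne
  have hyz := h2.ne
  have hxz := h3.ne
  rcases hc x hx y hy h1 with rfl | rfl
  · rcases hc y hy z hz h2 with h | h
    · exact hxy h.symm
    · exact hxz h.symm
  · rcases hc x hx z hz h3 with h | h
    · exact hxy h
    · exact hyz h.symm

lemma Star.no_disj {W : Finset V} (h : Star G W) {x y z w : V} (hx : x ∈ W) (hy : y ∈ W)
    (hz : z ∈ W) (hw : w ∈ W) (h1 : G.Adj x y) (h2 : G.Adj z w) (h3 : x ≠ z) (h4 : x ≠ w)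
    (h5 : y ≠ z) (h6 : y ≠ w) : False := by
  obtain ⟨c, hc⟩ := h
  rcases hc x hx y hy h1 with h | h <;> rcases hc z hz w hw h2 with h' | h'
  · exact h3 (h.trans h'.symm)
  · exact h4 (h.trans h'.symm)
  · exact h5 (h.trans h'.symm)
  · exact h6 (h.trans h'.symm)

/-- if `G[H]` has an edge then its reconfiguration graph has an edge -/
lemma exists_edge (H : Finset V) (he : ∃ x ∈ H, ∃ y ∈ H, G.Adj x y) :
    ∃ P Q, IsM G H P ∧ IsM G H Q ∧ Rel G P Q := by
  induction' hn : H.card using Nat.strong_induction_on with n ih generalizing H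
  subst hn
  by_cases hz : ∃ z ∈ H, ∃ x ∈ del G z H, ∃ y ∈ del G z H, G.Adj x y
  · obtain ⟨z, hz, hz'⟩ := hz
    have hlt : (del G z H).card < H.card := by
      apply card_lt_card
      refine ⟨del_subset, fun hh => ?_⟩
      exact (mem_del.1 (hh hz)).2.1 rfl
    obtain ⟨P, Q, hP, hQ, hPQ⟩ := ih _ hlt _ hz' rfl
    exact ⟨_, _, isM_lift hz hP, isM_lift hz hQ,
      rel_lift (notMem_of_isM_del hP) (notMem_of_isM_del hQ) hPQ⟩
  · push Not at hz
    obtain ⟨x, hx, y, hy, hxy⟩ := he
    -- common non-neighbours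
    have hcom : ∀ z ∈ H, G.Adj x z ∨ G.Adj y z := by
      intro z hzH
      by_contra hcon
      push Not at hcon
      have hzx : z ≠ x := fun h => hcon.2 (h ▸ hxy.symm)
      have hzy : z ≠ y := fun h => hcon.1 (h ▸ hxy)
      exact hz z hzH x (mem_del.2 ⟨hx, hzx.symm, fun h => hcon.1 h.symm⟩) y
        (mem_del.2 ⟨hy, hzy.symm, fun h => hcon.2 h.symm⟩) hxy
    have hpart : ∀ u ∈ H, IsM G H (insert u (del G u H)) := by
      intro u hu
      apply isM_of_indep
      · exact insert_subset hu del_subset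
      · intro a ha b hb hab
        rw [mem_insert] at ha hb
        rcases ha with rfl | ha <;> rcases hb with rfl | hb
        · exact G.loopless.irrefl _ hab
        · exact (mem_del.1 hb).2.2 hab
        · exact (mem_del.1 ha).2.2 hab.symm
        · exact hz u hu a ha b hb hab
      · intro w hw
        by_cases hwu : w = u
        · left; simp [hwu]
        by_cases hadj : G.Adj u w
        · right; exact ⟨u, by simp, hadj⟩
        · left; rw [mem_insert]; right; exact mem_del.2 ⟨hw, hwu, hadj⟩
    -- a vertex whose part is a singleton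
    have hsing : ∀ u ∈ H, ∀ w ∈ H, G.Adj u w → (∀ z ∈ H, z ≠ u → G.Adj u z) →
        ∃ P Q, IsM G H P ∧ IsM G H Q ∧ Rel G P Q := by
      intro u hu w hw huw hall
      refine ⟨insert w (del G w H), {u}, hpart w hw, ?_, Or.inl ?_⟩
      · apply isM_of_indep
        · simpa using hu
        · intro a ha b hb hab
          rw [mem_singleton] at ha hb
          subst ha; subst hb
          exact G.loopless.irrefl _ hab
        · intro z hz'
          by_cases hzu : z = u
          · left; simp [hzu]
          · right; exact ⟨u, by simp, hall z hz' hzu⟩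
      · apply R1.intro u
        · simp
        · rw [mem_insert]
          rintro (h | h)
          · exact huw.ne h
          · exact (mem_del.1 h).2.2 huw.symm
        · intro a ha hne
          rw [mem_singleton] at ha
          exact absurd ha hne
        · intro a ha ha'
          rw [mem_singleton] at ha'
          rw [mem_insert] at ha
          rcases ha with rfl | ha
          · exact huw
          · exact hall a (del_subset ha) ha'
    by_cases hX : ∀ z ∈ H, z ≠ x → G.Adj x z
    · exact hsing x hx y hy hxy hX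
    by_cases hY : ∀ z ∈ H, z ≠ y → G.Adj y z
    · exact hsing y hy x hx hxy.symm hY
    push Not at hX hY
    refine ⟨insert x (del G x H), {x, y}, hpart x hx, ?_, Or.inl ?_⟩
    · apply isM_pair hx hy hxy.ne _ hY hX
      intro z hz'
      rcases hcom z hz' with h | h
      · right; exact ⟨x, by simp, h⟩
      · right; exact ⟨y, by simp, h⟩
    · apply R1.intro y
      · simp
      · rw [mem_insert]
        rintro (h | h)
        · exact hxy.ne h.symm
        · exact (mem_del.1 h).2.2 hxy
      · intro a ha hne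
        simp only [mem_insert, mem_singleton] at ha
        rcases ha with rfl | rfl
        · simp
        · exact absurd rfl hne
      · intro a ha ha'
        simp only [mem_insert, mem_singleton, not_or] at ha'
        rw [mem_insert] at ha
        rcases ha with rfl | ha
        · exact absurd rfl ha'.1
        · have := mem_del.1 ha
          exact (hcom a this.1).resolve_left this.2.2

end Pool.Q273.MDR
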