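import Pool.Agent.Q273.MDR.CaseD

namespace Pool.Q273.MDR

open Finset Classical

variable {V : Type*} {G : SimpleGraph V}

/-- `s` and `c` form an independent dominating pair, both with external private neighbours. -/
structure CC (G : SimpleGraph V) (W : Finset V) (s c : V) : Prop where
  hs : s ∈ W
  hc : c ∈ W
  hne : s ≠ c
  hna : ¬ G.Adj s c
  cov : ∀ w ∈ W, w = s ∨ w = c ∨ G.Adj s w ∨ G.Adj c w
  exA : ∃ a ∈ W, G.Adj s a ∧ ¬ G.Adj c a
  exL : ∃ l ∈ W, G.Adj c l ∧ ¬ G.Adj s l

lemma CC.symm {W : Finset V} {s c : V} (H : CC G W s c) : CC G W c s where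
  hs := H.hc
  hc := H.hs
  hne := H.hne.symm
  hna := fun h => H.hna h.symm
  cov := fun w hw => by
    rcases H.cov w hw with h | h | h | h
    · right; left; exact h
    · left; exact h
    · right; right; right; exact h
    · right; right; left; exact h
  exA := H.exL
  exL := H.exA

/-- private neighbours of `s` -/
noncomputable def PA (G : SimpleGraph V) (W : Finset V) (s c : V) : Finset V :=
  W.filter (fun w => G.Adj s w ∧ ¬ G.Adj c w)

lemma mem_PA {W : Finset V} {s c w : V} : w ∈ PA G W s c ↔ w ∈ W ∧ G.Adj s w ∧ ¬ G.Adj c w := by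
  simp [PA]

section
variable {W : Finset V} {s c : V}

lemma PA_ind (C : Ctx G W) (H : CC G W s c) :
    ∀ x ∈ PA G W s c, ∀ y ∈ PA G W s c, ¬ G.Adj x y := by
  intro x hx y hy hxy
  rw [mem_PA] at hx hy
  refine (C.star c H.hc).no_tri (x := s) (y := x) (z := y)
    (mem_del.2 ⟨H.hs, H.hne, fun h => H.hna h.symm⟩) (mem_del.2 ⟨hx.1, ?_, hx.2.2⟩)
    (mem_del.2 ⟨hy.1, ?_, hy.2.2⟩) hx.2.1 hxy hy.2.1
  · rintro rfl; exact H.hna hx.2.1
  · rintro rfl; exact H.hna hy.2.1

lemma s_notMem_PA : s ∉ PA G W s c := fun h => G.loopless.irrefl _ (mem_PA.1 h).2.1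

lemma c_notMem_PA (H : CC G W s c) : c ∉ PA G W s c := fun h => H.hna (mem_PA.1 h).2.1

lemma isM_P (H : CC G W s c) : IsM G W {s, c} := by
  apply isM_of_indep
  · intro x hx
    simp only [mem_insert, mem_singleton] at hx
    rcases hx with rfl | rfl
    · exact H.hs
    · exact H.hc
  · intro x hx y hy hxy
    simp only [mem_insert, mem_singleton] at hx hy
    rcases hx with rfl | rfl <;> rcases hy with rfl | rfl
    · exact G.loopless.irrefl _ hxy
    · exact H.hna hxy
    · exact H.hna hxy.symm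
    · exact G.loopless.irrefl _ hxy
  · intro w hw
    rcases H.cov w hw with h | h | h | h
    · left; simp [h]
    · left; simp [h]
    · right; exact ⟨s, by simp, h⟩
    · right; exact ⟨c, by simp, h⟩

lemma isM_P' (C : Ctx G W) (H : CC G W s c) : IsM G W (insert c (PA G W s c)) := by
  apply isM_of_indep
  · exact insert_subset H.hc (filter_subset _ _)
  · intro x hx y hy hxy
    rw [mem_insert] at hx hy
    rcases hx with rfl | hx <;> rcases hy with rfl | hy
    · exact G.loopless.irrefl _ hxy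
    · exact (mem_PA.1 hy).2.2 hxy
    · exact (mem_PA.1 hx).2.2 hxy.symm
    · exact PA_ind C H x hx y hy hxy
  · intro w hw
    rcases H.cov w hw with h | h | h | h
    · obtain ⟨a, ha, ha1, ha2⟩ := H.exA
      right
      exact ⟨a, mem_insert_of_mem (mem_PA.2 ⟨ha, ha1, ha2⟩), by rw [h]; exact ha1.symm⟩
    · left; simp [h]
    · by_cases hcw : G.Adj c w
      · right; exact ⟨c, by simp, hcw⟩
      · left; exact mem_insert_of_mem (mem_PA.2 ⟨hw, h, hcw⟩)
    · right; exact ⟨c, by simp, h⟩

lemma rel_PP' (H : CC G W s c) : Rel G {s, c} (insert c (PA G W s c)) := by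
  right
  apply R1.intro s
  · simp
  · rw [mem_insert]
    rintro (h | h)
    · exact H.hne h
    · exact s_notMem_PA h
  · intro x hx hne
    simp only [mem_insert, mem_singleton] at hx ⊢
    left; exact hx.resolve_left hne
  · intro x hx hx'
    simp only [mem_insert, mem_singleton, not_or] at hx hx'
    exact (mem_PA.1 (hx.resolve_left hx'.2)).2.1

lemma isM_Q (C : Ctx G W) (H : CC G W s c) : IsM G W (insert s (PA G W c s)) := isM_P' C H.symm

lemma rel_QP (H : CC G W s c) : Rel G (insert s (PA G W c s)) {s, c} := by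
  have := rel_PP' H.symm
  rw [pair_comm] at this
  exact this.symm

lemma P'_ne_Q (H : CC G W s c) : insert c (PA G W s c) ≠ insert s (PA G W c s) := by
  intro h
  have : c ∈ insert s (PA G W c s) := h ▸ mem_insert_self _ _
  rw [mem_insert] at this
  rcases this with h | h
  · exact H.hne h.symm
  · exact s_notMem_PA h

/-- no common neighbour of `s` and `c` is complete to the private neighbours of `c` -/
lemma K1 (C : Ctx G W) (H : CC G W s c) {k : V} (hk : k ∈ W) (h1 : G.Adj s k) (h2 : G.Adj c k) :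
    ∃ l ∈ PA G W c s, ¬ G.Adj k l := by
  by_contra hcon
  push Not at hcon
  have hD : IsM G W {s, k} := by
    apply isM_pair H.hs hk h1.ne
    · intro w hw
      rcases H.cov w hw with h | h | h | h
      · left; simp [h]
      · right; exact ⟨k, by simp, by rw [h]; exact h2.symm⟩
      · right; exact ⟨s, by simp, h⟩
      · by_cases hsw : G.Adj s w
        · right; exact ⟨s, by simp, hsw⟩
        · right; exact ⟨k, by simp, hcon w (mem_PA.2 ⟨hw, h, hsw⟩)⟩
    · exact C.nd k hk
    · exact ⟨c, H.hc, H.hne.symm, H.hna⟩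
  refine C.h3 (isM_P H) hD (isM_Q C H) (Or.inl ?_) (Or.inr ?_) (rel_QP H)
  · apply R1.intro k
    · simp
    · simp only [mem_insert, mem_singleton, not_or]
      exact ⟨h1.ne', h2.ne'⟩
    · intro x hx hne
      simp only [mem_insert, mem_singleton] at hx ⊢
      left; exact hx.resolve_right hne
    · intro x hx hx'
      simp only [mem_insert, mem_singleton, not_or] at hx hx'
      rw [hx.resolve_left hx'.1]
      exact h2.symm
  · apply R1.intro k
    · simp
    · rw [mem_insert]
      rintro (h | h)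
      · exact h1.ne h.symm
      · exact (mem_PA.1 h).2.2 h1
    · intro x hx hne
      simp only [mem_insert, mem_singleton] at hx ⊢
      left; exact hx.resolve_right hne
    · intro x hx hx'
      simp only [mem_insert, mem_singleton, not_or] at hx hx'
      exact hcon x (hx.resolve_left hx'.1)

lemma MA (C : Ctx G W) (H : CC G W s c) {a a' x x2 : V} (ha : a ∈ PA G W s c)
    (ha' : a' ∈ PA G W s c) (hx : x ∈ W) (hx2 : x2 ∈ W) (hcx : G.Adj c x) (hcx2 : G.Adj c x2)
    (h1 : ¬ G.Adj a x) (h2 : G.Adj a' x) (h3 : ¬ G.Adj a x2) : x2 = x := by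
  by_contra hne
  have haW := mem_PA.1 ha
  have haW' := mem_PA.1 ha'
  have hac : a ≠ c := by rintro rfl; exact c_notMem_PA H ha
  refine (C.star a haW.1).no_disj (x := a') (y := x) (z := c) (w := x2) ?_ ?_ ?_ ?_ h2 hcx2
    ?_ ?_ hcx.ne' (fun h => hne h.symm)
  · refine mem_del.2 ⟨haW'.1, ?_, PA_ind C H a ha a' ha'⟩
    rintro rfl; exact h1 h2
  · refine mem_del.2 ⟨hx, ?_, h1⟩
    rintro rfl; exact haW.2.2 hcx
  · exact mem_del.2 ⟨H.hc, hac.symm, fun h => haW.2.2 h.symm⟩
  · refine mem_del.2 ⟨hx2, ?_, h3⟩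
    rintro rfl; exact haW.2.2 hcx2
  · rintro rfl; exact c_notMem_PA H ha'
  · rintro rfl; exact haW'.2.2 hcx2

/-- common neighbours of the private neighbours structure: vertices in `N(c)` without neighbours
among the private neighbours of `s` -/
noncomputable def FA (G : SimpleGraph V) (W : Finset V) (s c : V) : Finset V :=
  W.filter (fun x => G.Adj c x ∧ ∀ a ∈ PA G W s c, ¬ G.Adj a x)

lemma mem_FA {x : V} : x ∈ FA G W s c ↔ x ∈ W ∧ G.Adj c x ∧ ∀ a ∈ PA G W s c, ¬ G.Adj a x := by
  simp [FA]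

lemma dich (C : Ctx G W) (H : CC G W s c) {x0 : V} (hx0 : x0 ∈ FA G W s c) {x a : V} (hx : x ∈ W)
    (hcx : G.Adj c x) (ha : a ∈ PA G W s c) (h : ¬ G.Adj a x) : x ∈ FA G W s c := by
  refine mem_FA.2 ⟨hx, hcx, fun a' ha' hadj => ?_⟩
  have hx0' := mem_FA.1 hx0
  have := MA C H ha ha' hx hx0'.1 hcx hx0'.2.1 h hadj (hx0'.2.2 a ha)
  rw [← this] at hadj
  exact hx0'.2.2 a' ha' hadj

lemma K_FA (C : Ctx G W) (H : CC G W s c) {x0 : V} (hx0 : x0 ∈ FA G W s c) {k : V} (hk : k ∈ W)
    (h1 : G.Adj s k) (h2 : G.Adj c k) : k ∈ FA G W s c := by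
  obtain ⟨a, ha, hka⟩ := K1 C H.symm hk h2 h1
  exact dich C H hx0 hk h2 ha (fun h => hka h.symm)

lemma FA_ind (C : Ctx G W) (H : CC G W s c) :
    ∀ x ∈ FA G W s c, ∀ y ∈ FA G W s c, ¬ G.Adj x y := by
  intro x hx y hy hxy
  rw [mem_FA] at hx hy
  obtain ⟨a, haW, ha1, ha2⟩ := H.exA
  have ha : a ∈ PA G W s c := mem_PA.2 ⟨haW, ha1, ha2⟩
  have hac : a ≠ c := by rintro rfl; exact c_notMem_PA H ha
  refine (C.star a haW).no_tri (x := c) (y := x) (z := y)
    (mem_del.2 ⟨H.hc, hac.symm, fun h => ha2 h.symm⟩) (mem_del.2 ⟨hx.1, ?_, hx.2.2 a ha⟩)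
    (mem_del.2 ⟨hy.1, ?_, hy.2.2 a ha⟩) hx.2.1 hxy hy.2.1
  · rintro rfl; exact ha2 hx.2.1
  · rintro rfl; exact ha2 hy.2.1

lemma c_notMem_FA : c ∉ FA G W s c := fun h => G.loopless.irrefl _ (mem_FA.1 h).2.1

lemma isM_EA (C : Ctx G W) (H : CC G W s c) {x0 : V} (hx0 : x0 ∈ FA G W s c) :
    IsM G W (PA G W s c ∪ FA G W s c) := by
  obtain ⟨a, haW, ha1, ha2⟩ := H.exA
  have ha : a ∈ PA G W s c := mem_PA.2 ⟨haW, ha1, ha2⟩
  apply isM_of_indep
  · exact union_subset (filter_subset _ _) (filter_subset _ _)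
  · intro x hx y hy hxy
    rw [mem_union] at hx hy
    rcases hx with hx | hx <;> rcases hy with hy | hy
    · exact PA_ind C H x hx y hy hxy
    · exact (mem_FA.1 hy).2.2 x hx hxy
    · exact (mem_FA.1 hx).2.2 y hy hxy.symm
    · exact FA_ind C H x hx y hy hxy
  · have hcase : ∀ w ∈ W, G.Adj c w → w ∈ PA G W s c ∪ FA G W s c ∨
        ∃ m ∈ PA G W s c ∪ FA G W s c, G.Adj m w := by
      intro w hw hcw
      by_cases hadj : G.Adj a w
      · right; exact ⟨a, mem_union_left _ ha, hadj⟩
      · left; exact mem_union_right _ (dich C H hx0 hw hcw ha hadj)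
    intro w hw
    rcases H.cov w hw with h | h | h | h
    · right; exact ⟨a, mem_union_left _ ha, by rw [h]; exact ha1.symm⟩
    · right; exact ⟨x0, mem_union_right _ hx0, by rw [h]; exact (mem_FA.1 hx0).2.1.symm⟩
    · by_cases hcw : G.Adj c w
      · exact hcase w hw hcw
      · left; exact mem_union_left _ (mem_PA.2 ⟨hw, h, hcw⟩)
    · exact hcase w hw h

lemma c_notMem_EA (H : CC G W s c) : c ∉ PA G W s c ∪ FA G W s c := by
  rw [mem_union]
  rintro (h | h)
  · exact c_notMem_PA H h
  · exact c_notMem_FA h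

lemma rel_P'EA (H : CC G W s c) :
    Rel G (insert c (PA G W s c)) (PA G W s c ∪ FA G W s c) := by
  right
  apply R1.intro c
  · simp
  · exact c_notMem_EA H
  · intro x hx hne
    rw [mem_insert] at hx
    exact mem_union_left _ (hx.resolve_left hne)
  · intro x hx hx'
    rw [mem_insert, not_or] at hx'
    rw [mem_union] at hx
    exact (mem_FA.1 (hx.resolve_left hx'.2)).2.1

lemma P_ne_of_c {E : Finset V} (h : c ∉ E) : ({s, c} : Finset V) ≠ E := by
  intro hh
  exact h (hh ▸ (by simp))

/-- case (ii) -/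
lemma caseC_ii (C : Ctx G W) (H : CC G W s c) {x0 : V} (hx0 : x0 ∈ FA G W s c)
    (hFL : ∀ y ∈ W, G.Adj s y → ∃ l ∈ PA G W c s, G.Adj l y) : False := by
  obtain ⟨a0, ha0W, ha01, ha02⟩ := H.exA
  have ha0 : a0 ∈ PA G W s c := mem_PA.2 ⟨ha0W, ha01, ha02⟩
  have uniqL : ∀ l ∈ PA G W c s, ∀ y ∈ W, ∀ y2 ∈ W, G.Adj s y → G.Adj s y2 → ¬ G.Adj l y →
      ¬ G.Adj l y2 → y2 = y := by
    intro l hl y hy y2 hy2 h1 h2 h3 h4
    obtain ⟨l', hl', hadj⟩ := hFL y hy h1
    exact MA C H.symm hl hl' hy hy2 h1 h2 h3 hadj h4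
  have hEA := isM_EA C H hx0
  by_cases hcase : ∃ l0 ∈ PA G W c s, l0 ∈ FA G W s c
  · obtain ⟨l0, hl0, hl0F⟩ := hcase
    have hA : ∀ a ∈ PA G W s c, a = a0 := fun a ha =>
      uniqL l0 hl0 a0 ha0W a (mem_PA.1 ha).1 ha01 (mem_PA.1 ha).2.1
        (fun h => (mem_FA.1 hl0F).2.2 a0 ha0 h.symm) (fun h => (mem_FA.1 hl0F).2.2 a ha h.symm)
    have hK : ∀ k ∈ W, G.Adj s k → G.Adj c k → False := by
      intro k hk h1 h2
      have hkF := K_FA C H hx0 hk h1 h2
      have := uniqL l0 hl0 a0 ha0W k hk ha01 h1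
        (fun h => (mem_FA.1 hl0F).2.2 a0 ha0 h.symm) (FA_ind C H l0 hl0F k hkF)
      exact ha02 (this ▸ h2)
    have r : Rel G (insert s (PA G W c s)) (PA G W s c ∪ FA G W s c) := by
      left
      apply R1.intro a0
      · exact mem_union_left _ ha0
      · rw [mem_insert]
        rintro (h | h)
        · exact ha01.ne h.symm
        · exact (mem_PA.1 h).2.2 ha01
      · intro x hx hne
        rw [mem_union] at hx
        have hxF : x ∈ FA G W s c := hx.resolve_left (fun h => hne (hA x h))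
        have := mem_FA.1 hxF
        exact mem_insert_of_mem (mem_PA.2 ⟨this.1, this.2.1, fun h => hK x this.1 h this.2.1⟩)
      · intro x hx hx'
        rw [mem_insert] at hx
        rcases hx with rfl | hx
        · exact ha01.symm
        · rw [mem_union, not_or] at hx'
          have := mem_PA.1 hx
          by_contra hcon
          exact hx'.2 (dich C H hx0 this.1 this.2.1 ha0 hcon)
    exact C.h4 (isM_P H) (isM_P' C H) hEA (isM_Q C H) (rel_PP' H) (rel_P'EA H) r.symm
      (rel_QP H) (P_ne_of_c (c_notMem_EA H)) (P'_ne_Q H)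
  · push Not at hcase
    have hx0' := mem_FA.1 hx0
    have hFs : ∀ x ∈ FA G W s c, G.Adj s x := by
      intro x hx
      by_contra hcon
      have := mem_FA.1 hx
      exact hcase x (mem_PA.2 ⟨this.1, this.2.1, hcon⟩) hx
    have hcompl : ∀ l ∈ PA G W c s, ∀ a ∈ PA G W s c, G.Adj a l := by
      intro l hl a ha
      by_contra hcon
      exact hcase l hl (dich C H hx0 (mem_PA.1 hl).1 (mem_PA.1 hl).2.1 ha hcon)
    have hsk := hFs x0 hx0
    obtain ⟨l2, hl2, hkl2⟩ := K1 C H hx0'.1 hsk hx0'.2.1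
    have hl2' := mem_PA.1 hl2
    let D := insert x0 ((PA G W c s).filter (fun l => ¬ G.Adj x0 l))
    have hDm : ∀ w, w ∈ D ↔ w = x0 ∨ (w ∈ PA G W c s ∧ ¬ G.Adj x0 w) := by intro w; simp [D]
    have honly : ∀ l ∈ PA G W c s, ¬ G.Adj x0 l → ∀ w ∈ W, G.Adj s w → w ≠ x0 → G.Adj l w := by
      intro l hl hkl w hw hsw hne
      by_contra hcon
      exact hne (uniqL l hl x0 hx0'.1 w hw hsk hsw (fun h => hkl h.symm) hcon)
    have hD : IsM G W D := by
      apply isM_of_indep
      · exact insert_subset hx0'.1 ((filter_subset _ _).trans (filter_subset _ _))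
      · intro x hx y hy hxy
        rw [hDm] at hx hy
        rcases hx with rfl | ⟨hx, hx'⟩ <;> rcases hy with rfl | ⟨hy, hy'⟩
        · exact G.loopless.irrefl _ hxy
        · exact hy' hxy
        · exact hx' hxy.symm
        · exact PA_ind C H.symm x hx y hy hxy
      · intro w hw
        by_cases hwk : w = x0
        · left; rw [hDm]; left; exact hwk
        rcases H.cov w hw with h | h | h | h
        · right; exact ⟨x0, (hDm _).2 (Or.inl rfl), by rw [h]; exact hsk.symm⟩
        · right; exact ⟨x0, (hDm _).2 (Or.inl rfl), by rw [h]; exact hx0'.2.1.symm⟩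
        · right; exact ⟨l2, (hDm _).2 (Or.inr ⟨hl2, hkl2⟩), honly l2 hl2 hkl2 w hw h hwk⟩
        · by_cases hsw : G.Adj s w
          · right; exact ⟨l2, (hDm _).2 (Or.inr ⟨hl2, hkl2⟩), honly l2 hl2 hkl2 w hw hsw hwk⟩
          · by_cases hkw : G.Adj x0 w
            · right; exact ⟨x0, (hDm _).2 (Or.inl rfl), hkw⟩
            · left; rw [hDm]; right; exact ⟨mem_PA.2 ⟨hw, h, hsw⟩, hkw⟩
    have rQD : Rel G (insert s (PA G W c s)) D := by
      left
      apply R1.intro x0
      · rw [hDm]; left; rfl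
      · rw [mem_insert]
        rintro (h | h)
        · exact hsk.ne h.symm
        · exact (mem_PA.1 h).2.2 hsk
      · intro x hx hne
        rw [hDm] at hx
        exact mem_insert_of_mem (hx.resolve_left hne).1
      · intro x hx hx'
        rw [mem_insert] at hx
        rw [hDm, not_or] at hx'
        rcases hx with rfl | hx
        · exact hsk.symm
        · by_contra hcon
          exact hx'.2 ⟨hx, hcon⟩
    have rED : Rel G (PA G W s c ∪ FA G W s c) D := by
      by_cases huniq : ∀ l3 ∈ PA G W c s, ¬ G.Adj x0 l3 → l3 = l2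
      · left
        apply R1.intro l2
        · rw [hDm]; right; exact ⟨hl2, hkl2⟩
        · rw [mem_union]
          rintro (h | h)
          · exact hl2'.2.2 (mem_PA.1 h).2.1
          · exact hcase l2 hl2 h
        · intro x hx hne
          rw [hDm] at hx
          rcases hx with rfl | ⟨hx, hx'⟩
          · exact mem_union_right _ hx0
          · exact absurd (huniq x hx hx') hne
        · intro x hx hx'
          rw [hDm, not_or] at hx'
          rw [mem_union] at hx
          rcases hx with hx | hx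
          · exact (hcompl l2 hl2 x hx).symm
          · exact honly l2 hl2 hkl2 x (mem_FA.1 hx).1 (hFs x hx) hx'.1
      · push Not at huniq
        obtain ⟨l3, hl3, hkl3, hne3⟩ := huniq
        have hl3' := mem_PA.1 hl3
        have hEs : ∀ x ∈ PA G W s c ∪ FA G W s c, x ∈ W ∧ G.Adj s x ∧ ¬ G.Adj x0 x := by
          intro x hx
          rw [mem_union] at hx
          rcases hx with hx | hx
          · exact ⟨(mem_PA.1 hx).1, (mem_PA.1 hx).2.1, fun h => hx0'.2.2 x hx h.symm⟩
          · exact ⟨(mem_FA.1 hx).1, hFs x hx, FA_ind C H x0 hx0 x hx⟩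
        have ha0k : a0 ≠ x0 := by rintro rfl; exact ha02 hx0'.2.1
        have hsing : ∀ x ∈ PA G W s c ∪ FA G W s c, x ≠ x0 → x = a0 := by
          intro x hx hxk
          by_contra hxa
          obtain ⟨hxW, hsx, hkx⟩ := hEs x hx
          refine (C.star x0 hx0'.1).no_disj (x := a0) (y := l2) (z := x) (w := l3)
            (mem_del.2 ⟨ha0W, ha0k, (hEs a0 (mem_union_left _ ha0)).2.2⟩)
            (mem_del.2 ⟨hl2'.1, ?_, hkl2⟩) (mem_del.2 ⟨hxW, hxk, hkx⟩)
            (mem_del.2 ⟨hl3'.1, ?_, hkl3⟩) (hcompl l2 hl2 a0 ha0)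
            (honly l3 hl3 hkl3 x hxW hsx hxk).symm (fun h => hxa h.symm) ?_ ?_ hne3.symm
          · rintro rfl; exact hl2'.2.2 hsk
          · rintro rfl; exact hl3'.2.2 hsk
          · rintro rfl; exact hl3'.2.2 ha01
          · rintro rfl; exact hl2'.2.2 hsx
        right
        apply R1.intro a0
        · exact mem_union_left _ ha0
        · rw [hDm]
          rintro (h | ⟨h, _⟩)
          · exact ha0k h
          · exact (mem_PA.1 h).2.2 ha01
        · intro x hx hne
          rw [hDm]
          left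
          by_contra hcon
          exact hne (hsing x hx hcon)
        · intro x hx hx'
          rw [hDm] at hx
          rcases hx with rfl | ⟨hx, _⟩
          · exact absurd (mem_union_right _ hx0) hx'
          · exact hcompl x hx a0 ha0
    exact C.h5 (isM_P H) (isM_P' C H) hEA hD (isM_Q C H) (rel_PP' H) (rel_P'EA H) rED rQD.symm
      (rel_QP H)

/-- auxiliary for case (i), complete subcase: one side is a singleton -/
lemma caseC_i_aux (C : Ctx G W) (H : CC G W s c) {x0 y0 a0 : V} (hx0 : x0 ∈ FA G W s c)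
    (hy0 : y0 ∈ FA G W c s) (ha0 : a0 ∈ PA G W s c) (hA : ∀ a ∈ PA G W s c, a = a0)
    (hcompl : ∀ a ∈ PA G W s c, ∀ l ∈ PA G W c s, G.Adj a l) : False := by
  obtain ⟨l0, hl0W, hl01, hl02⟩ := H.exL
  have hl0 : l0 ∈ PA G W c s := mem_PA.2 ⟨hl0W, hl01, hl02⟩
  have ha0' := mem_PA.1 ha0
  have r : Rel G (PA G W s c ∪ FA G W s c) (PA G W c s ∪ FA G W c s) := by
    right
    apply R1.intro a0
    · exact mem_union_left _ ha0
    · rw [mem_union]
      rintro (h | h)
      · exact (mem_PA.1 h).2.2 ha0'.2.1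
      · exact (mem_FA.1 h).2.2 l0 hl0 (hcompl a0 ha0 l0 hl0).symm
    · intro x hx hne
      rw [mem_union] at hx
      have hxF := hx.resolve_left (fun h => hne (hA x h))
      have hx' := mem_FA.1 hxF
      have hsx : G.Adj s x := by
        by_contra hcon
        exact hx'.2.2 a0 ha0 (hcompl a0 ha0 x (mem_PA.2 ⟨hx'.1, hx'.2.1, hcon⟩))
      exact mem_union_right _ (K_FA C H.symm hy0 hx'.1 hx'.2.1 hsx)
    · intro x hx hx'
      rw [mem_union] at hx
      rcases hx with hx | hx
      · exact hcompl a0 ha0 x hx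
      · exfalso
        have h' := mem_FA.1 hx
        have hcx : G.Adj c x := by
          by_contra hcon
          have hxA : x ∈ PA G W s c := mem_PA.2 ⟨h'.1, h'.2.1, hcon⟩
          exact h'.2.2 l0 hl0 (hcompl x hxA l0 hl0).symm
        exact hx' (mem_union_right _ (K_FA C H hx0 h'.1 h'.2.1 hcx))
  exact C.h5 (isM_P H) (isM_P' C H) (isM_EA C H hx0) (isM_EA C H.symm hy0) (isM_Q C H)
    (rel_PP' H) (rel_P'EA H) r (rel_P'EA H.symm).symm (rel_QP H)

/-- case (i) -/
lemma caseC_i (C : Ctx G W) (H : CC G W s c) {x0 y0 : V} (hx0 : x0 ∈ FA G W s c)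
    (hy0 : y0 ∈ FA G W c s) : False := by
  obtain ⟨a0, ha0W, ha01, ha02⟩ := H.exA
  have ha0 : a0 ∈ PA G W s c := mem_PA.2 ⟨ha0W, ha01, ha02⟩
  obtain ⟨l0, hl0W, hl01, hl02⟩ := H.exL
  have hl0 : l0 ∈ PA G W c s := mem_PA.2 ⟨hl0W, hl01, hl02⟩
  by_cases he : ∃ a ∈ PA G W s c, ∃ l ∈ PA G W c s, G.Adj a l
  · obtain ⟨a, ha, l, hl, hal⟩ := he
    have h1 : ∀ a' ∈ PA G W s c, G.Adj a' l := by
      intro a' ha'
      by_contra hcon
      have := dich C H hx0 (mem_PA.1 hl).1 (mem_PA.1 hl).2.1 ha' hcon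
      exact (mem_FA.1 this).2.2 a ha hal
    have hcompl : ∀ a' ∈ PA G W s c, ∀ l' ∈ PA G W c s, G.Adj a' l' := by
      intro a' ha' l' hl'
      by_contra hcon
      have := dich C H.symm hy0 (mem_PA.1 ha').1 (mem_PA.1 ha').2.1 hl' (fun h => hcon h.symm)
      exact (mem_FA.1 this).2.2 l hl (h1 a' ha').symm
    have hx0' := mem_FA.1 hx0
    have hsx0 : G.Adj s x0 := by
      by_contra hcon
      exact hx0'.2.2 a0 ha0 (hcompl a0 ha0 x0 (mem_PA.2 ⟨hx0'.1, hx0'.2.1, hcon⟩))
    have hx0L := K_FA C H.symm hy0 hx0'.1 hx0'.2.1 hsx0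
    by_cases hA : ∀ a' ∈ PA G W s c, a' = a0
    · exact caseC_i_aux C H hx0 hy0 ha0 hA hcompl
    by_cases hL : ∀ l' ∈ PA G W c s, l' = l0
    · exact caseC_i_aux C H.symm hy0 hx0 hl0 hL (fun l' hl' a' ha' => (hcompl a' ha' l' hl').symm)
    push Not at hA hL
    obtain ⟨a1, ha1, hne1⟩ := hA
    obtain ⟨l1, hl1, hne2⟩ := hL
    have memA : ∀ z ∈ PA G W s c, z ∈ del G x0 W := by
      intro z hz
      refine mem_del.2 ⟨(mem_PA.1 hz).1, ?_, fun h => hx0'.2.2 z hz h.symm⟩
      rintro rfl; exact (mem_PA.1 hz).2.2 hx0'.2.1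
    have memL : ∀ z ∈ PA G W c s, z ∈ del G x0 W := by
      intro z hz
      refine mem_del.2 ⟨(mem_PA.1 hz).1, ?_, fun h => (mem_FA.1 hx0L).2.2 z hz h.symm⟩
      rintro rfl; exact (mem_PA.1 hz).2.2 hsx0
    have hdis : ∀ z ∈ PA G W s c, ∀ z' ∈ PA G W c s, z ≠ z' := by
      intro z hz z' hz' h
      rw [h] at hz
      exact (mem_PA.1 hz').2.2 (mem_PA.1 hz).2.1
    exact (C.star x0 hx0'.1).no_disj (memA a0 ha0) (memL l0 hl0) (memA a1 ha1) (memL l1 hl1)
      (hcompl a0 ha0 l0 hl0) (hcompl a1 ha1 l1 hl1) hne1.symm (hdis a0 ha0 l1 hl1)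
      (fun h => hdis a1 ha1 l0 hl0 h.symm) hne2.symm
  · push Not at he
    have hX : ∀ x ∈ W, G.Adj c x → x ∈ FA G W s c := by
      intro x hx hcx
      by_cases hsx : G.Adj s x
      · exact K_FA C H hx0 hx hsx hcx
      · exact mem_FA.2 ⟨hx, hcx, fun a ha => he a ha x (mem_PA.2 ⟨hx, hcx, hsx⟩)⟩
    have hY : ∀ x ∈ W, G.Adj s x → x ∈ FA G W c s := by
      intro x hx hsx
      by_cases hcx : G.Adj c x
      · exact K_FA C H.symm hy0 hx hcx hsx
      · exact mem_FA.2 ⟨hx, hsx, fun l hl h => he x (mem_PA.2 ⟨hx, hsx, hcx⟩) l hl h.symm⟩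
    let E := W.filter (fun w => w ≠ s ∧ w ≠ c)
    have hEm : ∀ w, w ∈ E ↔ w ∈ W ∧ w ≠ s ∧ w ≠ c := by intro w; simp [E]
    have hE : IsM G W E := by
      apply isM_of_indep (filter_subset _ _)
      · intro x hx y hy hxy
        rw [hEm] at hx hy
        have hx2 : G.Adj s x ∨ G.Adj c x := by
          rcases H.cov x hx.1 with h | h | h
          · exact absurd h hx.2.1
          · exact absurd h hx.2.2
          · exact h
        have hy2 : G.Adj s y ∨ G.Adj c y := by
          rcases H.cov y hy.1 with h | h | h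
          · exact absurd h hy.2.1
          · exact absurd h hy.2.2
          · exact h
        rcases hx2 with h | h <;> rcases hy2 with h' | h'
        · exact FA_ind C H.symm x (hY x hx.1 h) y (hY y hy.1 h') hxy
        · by_cases hcx : G.Adj c x
          · exact FA_ind C H x (hX x hx.1 hcx) y (hX y hy.1 h') hxy
          · exact (mem_FA.1 (hX y hy.1 h')).2.2 x (mem_PA.2 ⟨hx.1, h, hcx⟩) hxy
        · by_cases hcy : G.Adj c y
          · exact FA_ind C H x (hX x hx.1 h) y (hX y hy.1 hcy) hxy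
          · exact (mem_FA.1 (hX x hx.1 h)).2.2 y (mem_PA.2 ⟨hy.1, h', hcy⟩) hxy.symm
        · exact FA_ind C H x (hX x hx.1 h) y (hX y hy.1 h') hxy
      · intro w hw
        by_cases h1 : w = s
        · right
          refine ⟨a0, (hEm _).2 ⟨ha0W, ha01.ne', ?_⟩, by rw [h1]; exact ha01.symm⟩
          rintro rfl; exact H.hna ha01
        by_cases h2 : w = c
        · right
          refine ⟨l0, (hEm _).2 ⟨hl0W, ?_, hl01.ne'⟩, by rw [h2]; exact hl01.symm⟩
          rintro rfl; exact H.hna hl01.symm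
        · left; rw [hEm]; exact ⟨hw, h1, h2⟩
    have hrel : ∀ {s' c' : V}, CC G W s' c' → (∀ w, w ∈ E ↔ w ∈ W ∧ w ≠ s' ∧ w ≠ c') →
        Rel G (insert c' (PA G W s' c')) E := by
      intro s' c' H' hE'
      right
      apply R1.intro c'
      · simp
      · rw [hE']; simp
      · intro x hx hne
        rw [mem_insert] at hx
        have hx' := hx.resolve_left hne
        rw [hE']
        refine ⟨(mem_PA.1 hx').1, ?_, hne⟩
        rintro rfl
        exact s_notMem_PA hx'
      · intro x hx hx'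
        rw [hE'] at hx
        rw [mem_insert, not_or] at hx'
        by_contra hcon
        rcases H'.cov x hx.1 with h | h | h | h
        · exact hx.2.1 h
        · exact hx.2.2 h
        · exact hx'.2 (mem_PA.2 ⟨hx.1, h, hcon⟩)
        · exact hcon h
    have r1 := hrel H hEm
    have r2 := hrel H.symm (fun w => by rw [hEm]; tauto)
    refine C.h4 (isM_P H) (isM_P' C H) hE (isM_Q C H) (rel_PP' H) r1 r2.symm (rel_QP H)
      (P_ne_of_c ?_) (P'_ne_Q H)
    rw [hEm]; simp

/-- case (iv) -/
lemma caseC_iv (C : Ctx G W) (H : CC G W s c)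
    (hFA : ∀ x ∈ W, G.Adj c x → ∃ a ∈ PA G W s c, G.Adj a x)
    (hFL : ∀ y ∈ W, G.Adj s y → ∃ l ∈ PA G W c s, G.Adj l y) : False := by
  have uniqL : ∀ l ∈ PA G W c s, ∀ y ∈ W, ∀ y2 ∈ W, G.Adj s y → G.Adj s y2 → ¬ G.Adj l y →
      ¬ G.Adj l y2 → y2 = y := by
    intro l hl y hy y2 hy2 h1 h2 h3 h4
    obtain ⟨l', hl', hadj⟩ := hFL y hy h1
    exact MA C H.symm hl hl' hy hy2 h1 h2 h3 hadj h4
  have uniqA : ∀ a ∈ PA G W s c, ∀ x ∈ W, ∀ x2 ∈ W, G.Adj c x → G.Adj c x2 → ¬ G.Adj a x →
      ¬ G.Adj a x2 → x2 = x := by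
    intro a ha x hx x2 hx2 h1 h2 h3 h4
    obtain ⟨a', ha', hadj⟩ := hFA x hx h1
    exact MA C H ha ha' hx hx2 h1 h2 h3 hadj h4
  obtain ⟨a0, ha0W, ha01, ha02⟩ := H.exA
  have ha0 : a0 ∈ PA G W s c := mem_PA.2 ⟨ha0W, ha01, ha02⟩
  obtain ⟨l0, hl0W, hl01, hl02⟩ := H.exL
  have hl0 : l0 ∈ PA G W c s := mem_PA.2 ⟨hl0W, hl01, hl02⟩
  -- the 4-cycle through `{a, l}`
  have main : ∀ a ∈ PA G W s c, ∀ l ∈ PA G W c s, IsM G W {a, l} →
      (∀ a' ∈ PA G W s c, a' ≠ a → G.Adj l a') → (∀ l' ∈ PA G W c s, l' ≠ l → G.Adj a l') →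
      False := by
    intro a ha l hl hD h1 h2
    have ha' := mem_PA.1 ha
    have hl' := mem_PA.1 hl
    have r1 : Rel G (insert c (PA G W s c)) {a, l} := by
      left
      apply R1.intro l
      · simp
      · rw [mem_insert]
        rintro (h | h)
        · rw [h] at hl'; exact G.loopless.irrefl _ hl'.2.1
        · exact hl'.2.2 (mem_PA.1 h).2.1
      · intro x hx hne
        simp only [mem_insert, mem_singleton] at hx
        rw [hx.resolve_right hne]
        exact mem_insert_of_mem ha
      · intro x hx hx'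
        simp only [mem_insert, mem_singleton, not_or] at hx'
        rw [mem_insert] at hx
        rcases hx with rfl | hx
        · exact hl'.2.1.symm
        · exact h1 x hx hx'.1
    have r2 : Rel G (insert s (PA G W c s)) {a, l} := by
      left
      apply R1.intro a
      · simp
      · rw [mem_insert]
        rintro (h | h)
        · rw [h] at ha'; exact G.loopless.irrefl _ ha'.2.1
        · exact ha'.2.2 (mem_PA.1 h).2.1
      · intro x hx hne
        simp only [mem_insert, mem_singleton] at hx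
        rw [hx.resolve_left hne]
        exact mem_insert_of_mem hl
      · intro x hx hx'
        simp only [mem_insert, mem_singleton, not_or] at hx'
        rw [mem_insert] at hx
        rcases hx with rfl | hx
        · exact ha'.2.1.symm
        · exact h2 x hx hx'.2
    refine C.h4 (isM_P H) (isM_P' C H) hD (isM_Q C H) (rel_PP' H) r1 r2.symm (rel_QP H)
      (P_ne_of_c ?_) (P'_ne_Q H)
    simp only [mem_insert, mem_singleton, not_or]
    constructor
    · rintro rfl; exact H.hna ha'.2.1
    · rintro rfl; exact G.loopless.irrefl _ hl'.2.1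
  by_cases h1 : ∃ a ∈ PA G W s c, ∃ l ∈ PA G W c s, ¬ G.Adj a l
  · obtain ⟨a, ha, l, hl, hal⟩ := h1
    have ha' := mem_PA.1 ha
    have hl' := mem_PA.1 hl
    have hA : ∀ x ∈ W, G.Adj c x → x ≠ l → G.Adj a x := by
      intro x hx hcx hne
      by_contra hcon
      exact hne (uniqA a ha l hl'.1 x hx hl'.2.1 hcx hal hcon)
    have hL : ∀ y ∈ W, G.Adj s y → y ≠ a → G.Adj l y := by
      intro y hy hsy hne
      by_contra hcon
      exact hne (uniqL l hl a ha'.1 y hy ha'.2.1 hsy (fun h => hal h.symm) hcon)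
    refine main a ha l hl ?_ (fun a' ha2 hne => hL a' (mem_PA.1 ha2).1 (mem_PA.1 ha2).2.1 hne)
      (fun l' hl2 hne => hA l' (mem_PA.1 hl2).1 (mem_PA.1 hl2).2.1 hne)
    apply isM_of_indep
    · intro x hx
      simp only [mem_insert, mem_singleton] at hx
      rcases hx with rfl | rfl
      · exact ha'.1
      · exact hl'.1
    · intro x hx y hy hxy
      simp only [mem_insert, mem_singleton] at hx hy
      rcases hx with rfl | rfl <;> rcases hy with rfl | rfl
      · exact G.loopless.irrefl _ hxy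
      · exact hal hxy
      · exact hal hxy.symm
      · exact G.loopless.irrefl _ hxy
    · intro w hw
      rcases H.cov w hw with h | h | h | h
      · right; exact ⟨a, by simp, by rw [h]; exact ha'.2.1.symm⟩
      · right; exact ⟨l, by simp, by rw [h]; exact hl'.2.1.symm⟩
      · by_cases hwa : w = a
        · left; simp [hwa]
        · right; exact ⟨l, by simp, hL w hw h hwa⟩
      · by_cases hwl : w = l
        · left; simp [hwl]
        · right; exact ⟨a, by simp, hA w hw h hwl⟩
  · push Not at h1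
    by_cases hK : ∃ k ∈ W, G.Adj s k ∧ G.Adj c k
    · obtain ⟨k, hk, hsk, hck⟩ := hK
      obtain ⟨l2, hl2, hkl2⟩ := K1 C H hk hsk hck
      obtain ⟨a2, ha2, hka2⟩ := K1 C H.symm hk hck hsk
      have hA : ∀ a ∈ PA G W s c, ¬ G.Adj k a → ∀ x ∈ W, G.Adj c x → x ≠ k → G.Adj a x := by
        intro a ha hka x hx hcx hne
        by_contra hcon
        exact hne (uniqA a ha k hk x hx hck hcx (fun h => hka h.symm) hcon)
      have hL : ∀ l ∈ PA G W c s, ¬ G.Adj k l → ∀ y ∈ W, G.Adj s y → y ≠ k → G.Adj l y := by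
        intro l hl hkl y hy hsy hne
        by_contra hcon
        exact hne (uniqL l hl k hk y hy hsk hsy (fun h => hkl h.symm) hcon)
      -- generic construction of `D`
      have hgen : ∀ {s' c' : V}, CC G W s' c' → G.Adj s' k → G.Adj c' k →
          (∀ a ∈ PA G W s' c', ¬ G.Adj k a → ∀ x ∈ W, G.Adj c' x → x ≠ k → G.Adj a x) →
          (∃ a ∈ PA G W s' c', ¬ G.Adj k a) →
          IsM G W (insert k ((PA G W s' c').filter (fun a => ¬ G.Adj k a))) ∧
          Rel G (insert c' (PA G W s' c'))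
            (insert k ((PA G W s' c').filter (fun a => ¬ G.Adj k a))) := by
        intro s' c' H' hs'k hc'k hA' hex
        obtain ⟨a3, ha3, hka3⟩ := hex
        constructor
        · apply isM_of_indep
          · exact insert_subset hk ((filter_subset _ _).trans (filter_subset _ _))
          · intro x hx y hy hxy
            simp only [mem_insert, mem_filter] at hx hy
            rcases hx with rfl | ⟨hx, hx'⟩ <;> rcases hy with rfl | ⟨hy, hy'⟩
            · exact G.loopless.irrefl _ hxy
            · exact hy' hxy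
            · exact hx' hxy.symm
            · exact PA_ind C H' x hx y hy hxy
          · intro w hw
            simp only [mem_insert, mem_filter]
            by_cases hwk : w = k
            · left; left; exact hwk
            have hcase : G.Adj c' w → (∃ m, (m = k ∨ m ∈ PA G W s' c' ∧ ¬ G.Adj k m) ∧
                G.Adj m w) := fun h => ⟨a3, Or.inr ⟨ha3, hka3⟩, hA' a3 ha3 hka3 w hw h hwk⟩
            rcases H'.cov w hw with h | h | h | h
            · right; exact ⟨k, Or.inl rfl, by rw [h]; exact hs'k.symm⟩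
            · right; exact ⟨k, Or.inl rfl, by rw [h]; exact hc'k.symm⟩
            · by_cases hcw : G.Adj c' w
              · right; exact hcase hcw
              · by_cases hkw : G.Adj k w
                · right; exact ⟨k, Or.inl rfl, hkw⟩
                · left; right; exact ⟨mem_PA.2 ⟨hw, h, hcw⟩, hkw⟩
            · right; exact hcase h
        · left
          apply R1.intro k
          · simp
          · rw [mem_insert]
            rintro (h | h)
            · exact hc'k.ne h.symm
            · exact (mem_PA.1 h).2.2 hc'k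
          · intro x hx hne
            simp only [mem_insert, mem_filter] at hx ⊢
            right; exact (hx.resolve_left hne).1
          · intro x hx hx'
            simp only [mem_insert, mem_filter, not_or] at hx hx'
            rcases hx with rfl | hx
            · exact hc'k.symm
            · by_contra hcon
              exact hx'.2 ⟨hx, hcon⟩
      obtain ⟨hD0, r0⟩ := hgen H hsk hck hA ⟨a2, ha2, hka2⟩
      obtain ⟨hD1, r1⟩ := hgen H.symm hck hsk hL ⟨l2, hl2, hkl2⟩
      have hdis : ∀ z ∈ PA G W s c, ∀ z' ∈ PA G W c s, z ≠ z' := by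
        intro z hz z' hz' h
        rw [h] at hz
        exact (mem_PA.1 hz').2.2 (mem_PA.1 hz).2.1
      have rD : Rel G (insert k ((PA G W s c).filter (fun a => ¬ G.Adj k a)))
          (insert k ((PA G W c s).filter (fun a => ¬ G.Adj k a))) := by
        by_cases hA1 : ∀ a ∈ PA G W s c, ¬ G.Adj k a → a = a2
        · right
          apply R1.intro a2
          · simp only [mem_insert, mem_filter]
            right; exact ⟨ha2, hka2⟩
          · simp only [mem_insert, mem_filter, not_or]
            constructor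
            · rintro rfl; exact (mem_PA.1 ha2).2.2 hck
            · rintro ⟨h, _⟩; exact hdis a2 ha2 a2 h rfl
          · intro x hx hne
            simp only [mem_insert, mem_filter] at hx ⊢
            rcases hx with rfl | ⟨hx, hx'⟩
            · left; rfl
            · exact absurd (hA1 x hx hx') hne
          · intro x hx hx'
            simp only [mem_insert, mem_filter, not_or] at hx hx'
            exact h1 a2 ha2 x (hx.resolve_left hx'.1).1
        by_cases hL1 : ∀ l ∈ PA G W c s, ¬ G.Adj k l → l = l2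
        · left
          apply R1.intro l2
          · simp only [mem_insert, mem_filter]
            right; exact ⟨hl2, hkl2⟩
          · simp only [mem_insert, mem_filter, not_or]
            constructor
            · rintro rfl; exact (mem_PA.1 hl2).2.2 hsk
            · rintro ⟨h, _⟩; exact hdis l2 h l2 hl2 rfl
          · intro x hx hne
            simp only [mem_insert, mem_filter] at hx ⊢
            rcases hx with rfl | ⟨hx, hx'⟩
            · left; rfl
            · exact absurd (hL1 x hx hx') hne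
          · intro x hx hx'
            simp only [mem_insert, mem_filter, not_or] at hx hx'
            exact (h1 x (hx.resolve_left hx'.1).1 l2 hl2).symm
        exfalso
        push Not at hA1 hL1
        obtain ⟨a3, ha3, hka3, hne3⟩ := hA1
        obtain ⟨l3, hl3, hkl3, hne4⟩ := hL1
        have memA : ∀ z ∈ PA G W s c, ¬ G.Adj k z → z ∈ del G k W := by
          intro z hz hkz
          refine mem_del.2 ⟨(mem_PA.1 hz).1, ?_, hkz⟩
          rintro rfl; exact (mem_PA.1 hz).2.2 hck
        have memL : ∀ z ∈ PA G W c s, ¬ G.Adj k z → z ∈ del G k W := by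
          intro z hz hkz
          refine mem_del.2 ⟨(mem_PA.1 hz).1, ?_, hkz⟩
          rintro rfl; exact (mem_PA.1 hz).2.2 hsk
        exact (C.star k hk).no_disj (memA a2 ha2 hka2) (memL l2 hl2 hkl2) (memA a3 ha3 hka3)
          (memL l3 hl3 hkl3) (h1 a2 ha2 l2 hl2) (h1 a3 ha3 l3 hl3) hne3.symm
          (hdis a2 ha2 l3 hl3) (fun h => hdis a3 ha3 l2 hl2 h.symm) hne4.symm
      exact C.h5 (isM_P H) (isM_P' C H) hD0 hD1 (isM_Q C H) (rel_PP' H) r0 rD r1.symm (rel_QP H)
    · push Not at hK
      have hal := h1 a0 ha0 l0 hl0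
      refine main a0 ha0 l0 hl0 ?_ (fun a' ha' _ => (h1 a' ha' l0 hl0).symm)
        (fun l' hl' _ => h1 a0 ha0 l' hl')
      apply isM_pair ha0W hl0W hal.ne
      · intro w hw
        rcases H.cov w hw with h | h | h | h
        · right; exact ⟨a0, by simp, by rw [h]; exact ha01.symm⟩
        · right; exact ⟨l0, by simp, by rw [h]; exact hl01.symm⟩
        · right
          exact ⟨l0, by simp, (h1 w (mem_PA.2 ⟨hw, h, hK w hw h⟩) l0 hl0).symm⟩
        · right
          exact ⟨a0, by simp, h1 a0 ha0 w (mem_PA.2 ⟨hw, h, fun h' => hK w hw h' h⟩)⟩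
      · refine ⟨s, H.hs, ?_, fun h => hl02 h.symm⟩
        rintro rfl; exact H.hna hl01.symm
      · refine ⟨c, H.hc, ?_, fun h => ha02 h.symm⟩
        rintro rfl; exact H.hna ha01

lemma caseC (C : Ctx G W) (H : CC G W s c) : False := by
  by_cases h1 : ∃ x0, x0 ∈ FA G W s c
  · obtain ⟨x0, hx0⟩ := h1
    by_cases h2 : ∃ y0, y0 ∈ FA G W c s
    · obtain ⟨y0, hy0⟩ := h2
      exact caseC_i C H hx0 hy0
    · push Not at h2
      refine caseC_ii C H hx0 ?_
      intro y hy hsy
      by_contra hcon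
      push Not at hcon
      exact h2 y (mem_FA.2 ⟨hy, hsy, hcon⟩)
  · push Not at h1
    have hFA : ∀ x ∈ W, G.Adj c x → ∃ a ∈ PA G W s c, G.Adj a x := by
      intro y hy hsy
      by_contra hcon
      push Not at hcon
      exact h1 y (mem_FA.2 ⟨hy, hsy, hcon⟩)
    by_cases h2 : ∃ y0, y0 ∈ FA G W c s
    · obtain ⟨y0, hy0⟩ := h2
      exact caseC_ii C H.symm hy0 hFA
    · push Not at h2
      refine caseC_iv C H hFA ?_
      intro y hy hsy
      by_contra hcon
      push Not at hcon
      exact h2 y (mem_FA.2 ⟨hy, hsy, hcon⟩)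

end

end Pool.Q273.MDR
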