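import Pool.Agent.Q273.MDR.Base

namespace Pool.Q273.MDR

open Finset Classical

variable {V : Type*} {G : SimpleGraph V}

/-- the situation in a minimal counterexample -/
structure Ctx (G : SimpleGraph V) (W : Finset V) : Prop where
  star : ∀ v ∈ W, Star G (del G v W)
  nd : ∀ v ∈ W, ∃ w ∈ W, w ≠ v ∧ ¬ G.Adj v w
  ni : ∀ v ∈ W, ∃ w ∈ W, G.Adj v w
  ns : ¬ Short G W

lemma Ctx.h3 {W : Finset V} (C : Ctx G W) {a b c : Finset V} (ha : IsM G W a) (hb : IsM G W b)
    (hc : IsM G W c) (h1 : Rel G a b) (h2 : Rel G b c) (h3 : Rel G c a) : False :=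
  C.ns (Or.inl ⟨a, b, c, ha, hb, hc, h1, h2, h3⟩)

lemma Ctx.h4 {W : Finset V} (C : Ctx G W) {a b c d : Finset V} (ha : IsM G W a) (hb : IsM G W b)
    (hc : IsM G W c) (hd : IsM G W d) (h1 : Rel G a b) (h2 : Rel G b c) (h3 : Rel G c d)
    (h4 : Rel G d a) (h5 : a ≠ c) (h6 : b ≠ d) : False :=
  C.ns (Or.inr (Or.inl ⟨a, b, c, d, ha, hb, hc, hd, h1, h2, h3, h4, h5, h6⟩))

lemma Ctx.h5 {W : Finset V} (C : Ctx G W) {a b c d e : Finset V} (ha : IsM G W a)
    (hb : IsM G W b) (hc : IsM G W c) (hd : IsM G W d) (he : IsM G W e) (h1 : Rel G a b)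
    (h2 : Rel G b c) (h3 : Rel G c d) (h4 : Rel G d e) (h5 : Rel G e a) : False :=
  C.ns (Or.inr (Or.inr ⟨a, b, c, d, e, ha, hb, hc, hd, he, h1, h2, h3, h4, h5⟩))

/-- Case D: the non-neighbours of `c` are independent twins. -/
lemma caseD {W : Finset V} (C : Ctx G W) {c t : V} (hc : c ∈ W) (ht : t ∈ del G c W)
    (hind : ∀ x ∈ del G c W, ∀ y ∈ del G c W, ¬ G.Adj x y)
    (htw : ∀ x ∈ del G c W, ∀ w ∈ W, (G.Adj x w ↔ G.Adj t w)) : False := by
  set T := del G c W with hT
  have hct : ¬ G.Adj c t := (mem_del.1 ht).2.2
  have htW : t ∈ W := (mem_del.1 ht).1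
  have htc : t ≠ c := (mem_del.1 ht).2.1
  have hcT : c ∉ T := fun h => (mem_del.1 h).2.1 rfl
  -- membership alternatives
  have halt : ∀ w ∈ W, w = c ∨ G.Adj c w ∨ w ∈ T := by
    intro w hw
    by_cases h1 : w = c
    · left; exact h1
    by_cases h2 : G.Adj c w
    · right; left; exact h2
    · right; right; exact mem_del.2 ⟨hw, h1, h2⟩
  have hNT : ∀ v ∈ W, G.Adj t v → ∀ x ∈ T, G.Adj v x := fun v hv htv x hx =>
    ((htw x hx v hv).2 htv).symm
  have hNnT : ∀ v ∈ W, G.Adj t v → v ∉ T := fun v _ htv hvT => hind t ht v hvT htv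
  have hNc : ∀ v ∈ W, G.Adj t v → v ≠ c := by
    rintro v _ htv rfl
    exact hct htv.symm
  have hNcadj : ∀ v ∈ W, G.Adj t v → G.Adj c v := by
    intro v hv htv
    rcases halt v hv with h | h | h
    · exact absurd h (hNc v hv htv)
    · exact h
    · exact absurd h (hNnT v hv htv)
  -- P
  have hP : IsM G W (insert c T) := by
    apply isM_of_indep
    · exact insert_subset hc del_subset
    · intro a ha b hb hab
      rw [mem_insert] at ha hb
      rcases ha with rfl | ha <;> rcases hb with rfl | hb
      · exact G.loopless.irrefl _ hab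
      · exact (mem_del.1 hb).2.2 hab
      · exact (mem_del.1 ha).2.2 hab.symm
      · exact hind a ha b hb hab
    · intro w hw
      rcases halt w hw with h | h | h
      · left; simp [h]
      · right; exact ⟨c, by simp, h⟩
      · left; simp [h]
  have hD : ∀ v ∈ W, G.Adj t v → IsM G W {c, v} := by
    intro v hv htv
    apply isM_pair hc hv (hNc v hv htv).symm
    · intro w hw
      rcases halt w hw with h | h | h
      · left; simp [h]
      · right; exact ⟨c, by simp, h⟩
      · right; exact ⟨v, by simp, hNT v hv htv w h⟩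
    · exact C.nd v hv
    · exact ⟨t, htW, htc, hct⟩
  have hPD : ∀ v ∈ W, G.Adj t v → Rel G (insert c T) {c, v} := by
    intro v hv htv
    left
    apply R1.intro v
    · simp
    · rw [mem_insert]
      rintro (h | h)
      · exact hNc v hv htv h
      · exact hNnT v hv htv h
    · intro x hx hne
      simp only [mem_insert, mem_singleton] at hx
      rcases hx with rfl | rfl
      · simp
      · exact absurd rfl hne
    · intro x hx hx'
      simp only [mem_insert, mem_singleton, not_or] at hx'
      rw [mem_insert] at hx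
      exact hNT v hv htv x (hx.resolve_left hx'.1)
  -- N is independent
  have hNind : ∀ v ∈ W, ∀ v' ∈ W, G.Adj t v → G.Adj t v' → ¬ G.Adj v v' := by
    intro v hv v' hv' h1 h2 hvv
    refine C.h3 hP (hD v hv h1) (hD v' hv' h2) (hPD v hv h1) (Or.inl ?_) (hPD v' hv' h2).symm
    apply R1.intro v'
    · simp
    · simp only [mem_insert, mem_singleton, not_or]
      exact ⟨hNc v' hv' h2, hvv.ne'⟩
    · intro x hx hne
      simp only [mem_insert, mem_singleton] at hx ⊢
      exact Or.inl (hx.resolve_right hne)
    · intro x hx hx'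
      simp only [mem_insert, mem_singleton, not_or] at hx hx'
      rw [hx.resolve_left hx'.1]
      exact hvv.symm
  obtain ⟨v, hv, htv⟩ := C.ni t htW
  by_cases h2 : ∃ v' ∈ W, G.Adj t v' ∧ v' ≠ v
  · -- at least two neighbours
    obtain ⟨v', hv', htv', hne⟩ := h2
    let N := W.filter (fun w => G.Adj t w)
    have hN : ∀ w, w ∈ N ↔ w ∈ W ∧ G.Adj t w := by intro w; simp [N]
    obtain ⟨E, hNE, hEi, hEW, hE⟩ := exists_mis (G := G) (W := W) (I := N) (filter_subset _ _)
      (fun x hx y hy => hNind x ((hN x).1 hx).1 y ((hN y).1 hy).1 ((hN x).1 hx).2 ((hN y).1 hy).2)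
    have hcE : c ∉ E := fun h => hEi c h v (hNE ((hN v).2 ⟨hv, htv⟩)) (hNcadj v hv htv)
    have hDE : ∀ u ∈ W, G.Adj t u → Rel G {c, u} E := by
      intro u hu htu
      right
      apply R1.intro c
      · simp
      · exact hcE
      · intro x hx hne
        simp only [mem_insert, mem_singleton] at hx
        rw [hx.resolve_left hne]
        exact hNE ((hN u).2 ⟨hu, htu⟩)
      · intro x hx hx'
        simp only [mem_insert, mem_singleton, not_or] at hx'
        rcases halt x (hEW hx) with h | h | h
        · exact absurd h hx'.1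
        · exact h
        · exact absurd (hNT u hu htu x h) (hEi u (hNE ((hN u).2 ⟨hu, htu⟩)) x hx)
    refine C.h4 hP (hD v hv htv) hE (hD v' hv' htv') (hPD v hv htv) (hDE v hv htv)
      (hDE v' hv' htv').symm (hPD v' hv' htv').symm ?_ ?_
    · intro h
      exact hcE (h ▸ mem_insert_self _ _)
    · intro h
      have : v' ∈ ({c, v} : Finset V) := by rw [h]; simp
      simp only [mem_insert, mem_singleton] at this
      rcases this with h | h
      · exact hNc v' hv' htv' h
      · exact hne h
  · push Not at h2
    obtain ⟨x, hx, hxv, hvx⟩ := C.nd v hv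
    have hcv := hNcadj v hv htv
    have hxc : x ≠ c := by rintro rfl; exact hvx hcv.symm
    have hxT : x ∉ T := fun h => hvx (hNT v hv htv x h)
    have hcx : G.Adj c x := by
      rcases halt x hx with h | h | h
      · exact absurd h hxc
      · exact h
      · exact absurd h hxT
    let L := W.filter (fun w => G.Adj c w ∧ w ≠ v)
    have hL : ∀ w, w ∈ L ↔ w ∈ W ∧ G.Adj c w ∧ w ≠ v := by intro w; simp [L]
    have hLT : ∀ w ∈ L, w ∉ T := fun w hw hwT => (mem_del.1 hwT).2.2 ((hL w).1 hw).2.1
    have hLt : ∀ w ∈ L, ∀ y ∈ T, ¬ G.Adj w y := by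
      intro w hw y hy h
      have h' := (htw y hy w ((hL w).1 hw).1).1 h.symm
      exact ((hL w).1 hw).2.2 (h2 w ((hL w).1 hw).1 h')
    have hLind : ∀ a ∈ L, ∀ b ∈ L, ¬ G.Adj a b := by
      intro a ha b hb hab
      have hmem : ∀ w ∈ L, w ∈ del G t W := by
        intro w hw
        refine mem_del.2 ⟨((hL w).1 hw).1, ?_, fun h => hLt w hw t ht h.symm⟩
        rintro rfl
        exact hLT _ hw ht
      exact (C.star t htW).no_tri (x := c) (y := a) (z := b)
        (mem_del.2 ⟨hc, htc.symm, fun h => hct h.symm⟩) (hmem a ha) (hmem b hb)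
        ((hL a).1 ha).2.1 hab ((hL b).1 hb).2.1
    have hQ : IsM G W (T ∪ L) := by
      apply isM_of_indep
      · exact union_subset del_subset (filter_subset _ _)
      · intro a ha b hb hab
        rw [mem_union] at ha hb
        rcases ha with ha | ha <;> rcases hb with hb | hb
        · exact hind a ha b hb hab
        · exact hLt b hb a ha hab.symm
        · exact hLt a ha b hb hab
        · exact hLind a ha b hb hab
      · intro w hw
        rcases halt w hw with h | h | h
        · right
          refine ⟨x, mem_union_right _ ((hL x).2 ⟨hx, hcx, hxv⟩), ?_⟩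
          rw [h]; exact hcx.symm
        · by_cases hwv : w = v
          · right
            exact ⟨t, mem_union_left _ ht, by rw [hwv]; exact htv⟩
          · left
            exact mem_union_right _ ((hL w).2 ⟨hw, h, hwv⟩)
        · left; exact mem_union_left _ h
    let E := insert v (L.filter (fun w => ¬ G.Adj v w))
    have hEm : ∀ w, w ∈ E ↔ w = v ∨ (w ∈ L ∧ ¬ G.Adj v w) := by intro w; simp [E]
    have hE : IsM G W E := by
      apply isM_of_indep
      · exact insert_subset hv ((filter_subset _ _).trans (filter_subset _ _))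
      · intro a ha b hb hab
        rw [hEm] at ha hb
        rcases ha with rfl | ⟨ha, ha'⟩ <;> rcases hb with rfl | ⟨hb, hb'⟩
        · exact G.loopless.irrefl _ hab
        · exact hb' hab
        · exact ha' hab.symm
        · exact hLind a ha b hb hab
      · intro w hw
        rcases halt w hw with h | h | h
        · right; exact ⟨v, (hEm v).2 (Or.inl rfl), by rw [h]; exact hcv.symm⟩
        · by_cases hwv : w = v
          · left; rw [hEm]; left; exact hwv
          · by_cases hadj : G.Adj v w
            · right; exact ⟨v, (hEm v).2 (Or.inl rfl), hadj⟩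
            · left; rw [hEm]; right; exact ⟨(hL w).2 ⟨hw, h, hwv⟩, hadj⟩
        · right; exact ⟨v, (hEm v).2 (Or.inl rfl), hNT v hv htv w h⟩
    have hcE : c ∉ E := by
      rw [hEm]
      rintro (h | ⟨h, _⟩)
      · exact hNc v hv htv h.symm
      · exact G.loopless.irrefl _ ((hL c).1 h).2.1
    have hcQ : c ∉ T ∪ L := by
      rw [mem_union]
      rintro (h | h)
      · exact hcT h
      · exact G.loopless.irrefl _ ((hL c).1 h).2.1
    have r1 : Rel G (insert c T) (T ∪ L) := by
      right
      apply R1.intro c
      · simp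
      · exact hcQ
      · intro y hy hne
        rw [mem_insert] at hy
        exact mem_union_left _ (hy.resolve_left hne)
      · intro y hy hy'
        rw [mem_insert, not_or] at hy'
        rw [mem_union] at hy
        exact ((hL y).1 (hy.resolve_left hy'.2)).2.1
    have r2 : Rel G (T ∪ L) E := by
      left
      apply R1.intro v
      · rw [hEm]; left; rfl
      · rw [mem_union]
        rintro (h | h)
        · exact hNnT v hv htv h
        · exact ((hL v).1 h).2.2 rfl
      · intro y hy hne
        rw [hEm] at hy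
        exact mem_union_right _ (hy.resolve_left hne).1
      · intro y hy hy'
        rw [hEm, not_or] at hy'
        rw [mem_union] at hy
        rcases hy with hy | hy
        · exact hNT v hv htv y hy
        · by_contra hcon
          exact hy'.2 ⟨hy, hcon⟩
    have r3 : Rel G E {c, v} := by
      left
      apply R1.intro c
      · simp
      · exact hcE
      · intro y hy hne
        simp only [mem_insert, mem_singleton] at hy
        rw [hy.resolve_left hne, hEm]
        left; rfl
      · intro y hy hy'
        simp only [mem_insert, mem_singleton, not_or] at hy'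
        rw [hEm] at hy
        exact ((hL y).1 (hy.resolve_left hy'.2).1).2.1
    refine C.h4 hP hQ hE (hD v hv htv) r1 r2 r3 (hPD v hv htv).symm ?_ ?_
    · intro h
      exact hcE (h ▸ mem_insert_self _ _)
    · intro h
      exact hcQ (h ▸ mem_insert_self _ _)

end Pool.Q273.MDR
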