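import Pool.Agent.Q273.MDR.Main

namespace Pool.Q273.MDR

open Finset

universe u

section defs
variable {V : Type u} [DecidableEq V]

/-- `S` is dominating: every vertex is in `S` or has a neighbour in `S`. -/
def IsDominating (G : SimpleGraph V) (S : Finset V) : Prop :=
  ∀ w, w ∈ S ∨ ∃ v ∈ S, G.Adj v w

/-- `M` is a minimal dominating set. -/
def IsMinDom (G : SimpleGraph V) (M : Finset V) : Prop :=
  IsDominating G M ∧ ∀ v ∈ M, ¬ IsDominating G (M.erase v)

/-- The reconfiguration graph `R(G)`: its vertices are the minimal dominating sets; two distinct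
ones `M₁`, `M₂` are adjacent if for some vertex `v` either `M₂ \ M₁ = {v}` and
`M₁ \ M₂ ⊆ N(v)`, or `M₁ \ M₂ = {v}` and `M₂ \ M₁ ⊆ N(v)`. -/
def reconf (G : SimpleGraph V) : SimpleGraph {M : Finset V // IsMinDom G M} where
  Adj M₁ M₂ := M₁ ≠ M₂ ∧ ∃ v : V,
    ((M₂.1 \ M₁.1 = {v} ∧ ∀ x ∈ M₁.1 \ M₂.1, G.Adj v x) ∨
      (M₁.1 \ M₂.1 = {v} ∧ ∀ x ∈ M₂.1 \ M₁.1, G.Adj v x))
  symm := ⟨fun _ _ h => ⟨h.1.symm, h.2.imp fun _ h' => h'.symm⟩⟩
  loopless := ⟨fun _ h => h.1 rfl⟩

end defs

section cycles
variable {X : Type u} (H : SimpleGraph X)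

lemma cyc3 {a b c : X} (h1 : H.Adj a b) (h2 : H.Adj b c) (h3 : H.Adj c a) :
    ∃ (v : X) (p : H.Walk v v), p.IsCycle ∧ p.length = 3 := by
  refine ⟨a, .cons h1 (.cons h2 (.cons h3 .nil)), ?_, by simp⟩
  rw [SimpleGraph.Walk.cons_isCycle_iff]
  have e1 := h1.ne
  have e2 := h2.ne
  have e3 := h3.ne
  constructor
  · simp only [SimpleGraph.Walk.cons_isPath_iff, SimpleGraph.Walk.support_cons,
      SimpleGraph.Walk.support_nil, List.mem_cons, List.not_mem_nil, or_false,
      SimpleGraph.Walk.isPath_iff_eq_nil]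
    tauto
  · simp only [SimpleGraph.Walk.edges_cons, SimpleGraph.Walk.edges_nil, List.mem_cons,
      List.not_mem_nil, or_false, Sym2.eq_iff]
    tauto

lemma cyc4 {a b c d : X} (h1 : H.Adj a b) (h2 : H.Adj b c) (h3 : H.Adj c d) (h4 : H.Adj d a)
    (hac : a ≠ c) (hbd : b ≠ d) : ∃ (v : X) (p : H.Walk v v), p.IsCycle ∧ p.length = 4 := by
  refine ⟨a, .cons h1 (.cons h2 (.cons h3 (.cons h4 .nil))), ?_, by simp⟩
  rw [SimpleGraph.Walk.cons_isCycle_iff]
  have e1 := h1.ne
  have e2 := h2.ne
  have e3 := h3.ne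
  have e4 := h4.ne
  constructor
  · simp only [SimpleGraph.Walk.cons_isPath_iff, SimpleGraph.Walk.support_cons,
      SimpleGraph.Walk.support_nil, List.mem_cons, List.not_mem_nil, or_false,
      SimpleGraph.Walk.isPath_iff_eq_nil]
    tauto
  · simp only [SimpleGraph.Walk.edges_cons, SimpleGraph.Walk.edges_nil, List.mem_cons,
      List.not_mem_nil, or_false, Sym2.eq_iff]
    tauto

lemma cyc5 {a b c d e : X} (h1 : H.Adj a b) (h2 : H.Adj b c) (h3 : H.Adj c d) (h4 : H.Adj d e)
    (h5 : H.Adj e a) : ∃ (v : X) (p : H.Walk v v), p.IsCycle ∧ (p.length = 3 ∨ p.length = 5) := by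
  by_cases hac : a = c
  · subst hac
    obtain ⟨v, p, hp, hl⟩ := cyc3 H h3 h4 h5
    exact ⟨v, p, hp, Or.inl hl⟩
  by_cases had : a = d
  · subst had
    obtain ⟨v, p, hp, hl⟩ := cyc3 H h1 h2 h3
    exact ⟨v, p, hp, Or.inl hl⟩
  by_cases hbd : b = d
  · subst hbd
    obtain ⟨v, p, hp, hl⟩ := cyc3 H h4 h5 h1
    exact ⟨v, p, hp, Or.inl hl⟩
  by_cases hbe : b = e
  · subst hbe
    obtain ⟨v, p, hp, hl⟩ := cyc3 H h2 h3 h4
    exact ⟨v, p, hp, Or.inl hl⟩
  by_cases hce : c = e
  · subst hce
    obtain ⟨v, p, hp, hl⟩ := cyc3 H h5 h1 h2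
    exact ⟨v, p, hp, Or.inl hl⟩
  refine ⟨a, .cons h1 (.cons h2 (.cons h3 (.cons h4 (.cons h5 .nil)))), ?_, Or.inr (by simp)⟩
  rw [SimpleGraph.Walk.cons_isCycle_iff]
  have e1 := h1.ne
  have e2 := h2.ne
  have e3 := h3.ne
  have e4 := h4.ne
  have e5 := h5.ne
  constructor
  · simp only [SimpleGraph.Walk.cons_isPath_iff, SimpleGraph.Walk.support_cons,
      SimpleGraph.Walk.support_nil, List.mem_cons, List.not_mem_nil, or_false,
      SimpleGraph.Walk.isPath_iff_eq_nil]
    tauto
  · simp only [SimpleGraph.Walk.edges_cons, SimpleGraph.Walk.edges_nil, List.mem_cons,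
      List.not_mem_nil, or_false, Sym2.eq_iff]
    tauto

end cycles

section main
variable {V : Type u} [Fintype V] [DecidableEq V] (G : SimpleGraph V)

lemma isM_univ {M : Finset V} : IsM G univ M ↔ IsMinDom G M := by
  unfold IsM IsMinDom Dom IsDominating
  simp only [mem_erase, mem_univ, forall_true_left, subset_univ, true_and]

lemma adj_of_rel {M N : Finset V} (hM : IsM G univ M) (hN : IsM G univ N) (h : Rel G M N) :
    (reconf G).Adj ⟨M, (isM_univ G).1 hM⟩ ⟨N, (isM_univ G).1 hN⟩ := by
  have key : ∀ {A B : Finset V} {v : V}, @SDiff.sdiff (Finset V)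
      (@Finset.instSDiff V (fun a b => Classical.propDecidable (a = b))) A B = {v} →
      A \ B = {v} := by
    intro A B v h
    ext x
    have h1 := Finset.ext_iff.1 h x
    rw [mem_sdiff, ← h1]
    exact (@Finset.mem_sdiff V (fun a b => Classical.propDecidable (a = b)) A B x).symm
  have key2 : ∀ {A B : Finset V} {x : V}, x ∈ A \ B → x ∈ @SDiff.sdiff (Finset V)
      (@Finset.instSDiff V (fun a b => Classical.propDecidable (a = b))) A B := by
    intro A B x h
    exact (@Finset.mem_sdiff V (fun a b => Classical.propDecidable (a = b)) A B x).2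
      (mem_sdiff.1 h)
  refine ⟨?_, ?_⟩
  · intro heq
    have heq' : M = N := congrArg Subtype.val heq
    subst heq'
    rcases h with ⟨v, h, _⟩ | ⟨v, h, _⟩ <;>
    · have : v ∈ ({v} : Finset V) := by simp
      rw [← h] at this
      simp at this
  · rcases h with ⟨v, h1, h2⟩ | ⟨v, h1, h2⟩
    · exact ⟨v, Or.inl ⟨key h1, fun x hx => h2 x (key2 hx)⟩⟩
    · exact ⟨v, Or.inr ⟨key h1, fun x hx => h2 x (key2 hx)⟩⟩

lemma cycle_of_short (h : Short G univ) : ∃ (M : _) (p : (reconf G).Walk M M), p.IsCycle ∧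
    (p.length = 3 ∨ p.length = 4 ∨ p.length = 5) := by
  rcases h with ⟨a, b, c, ha, hb, hc, h1, h2, h3⟩ |
    ⟨a, b, c, d, ha, hb, hc, hd, h1, h2, h3, h4, h5, h6⟩ |
    ⟨a, b, c, d, e, ha, hb, hc, hd, he, h1, h2, h3, h4, h5⟩
  · obtain ⟨v, p, hp, hl⟩ := cyc3 (reconf G) (adj_of_rel G ha hb h1) (adj_of_rel G hb hc h2)
      (adj_of_rel G hc ha h3)
    exact ⟨v, p, hp, Or.inl hl⟩
  · obtain ⟨v, p, hp, hl⟩ := cyc4 (reconf G) (adj_of_rel G ha hb h1) (adj_of_rel G hb hc h2)
      (adj_of_rel G hc hd h3) (adj_of_rel G hd ha h4) (fun h => h5 (congrArg Subtype.val h))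
      (fun h => h6 (congrArg Subtype.val h))
    exact ⟨v, p, hp, Or.inr (Or.inl hl)⟩
  · obtain ⟨v, p, hp, hl⟩ := cyc5 (reconf G) (adj_of_rel G ha hb h1) (adj_of_rel G hb hc h2)
      (adj_of_rel G hc hd h3) (adj_of_rel G hd he h4) (adj_of_rel G he ha h5)
    exact ⟨v, p, hp, by tauto⟩

/-- all edges contain `c` -/
def StarAt (c : V) : Prop := ∀ x y, G.Adj x y → x = c ∨ y = c

/-- If all edges contain `c` then there are at most two minimal dominating sets, and two
different ones are adjacent. -/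
lemma star_struct {c : V} (h : StarAt G c) (M : Finset V) (hM : IsMinDom G M) :
    (c ∈ M → ∀ x, x ∈ M ↔ (x = c ∨ ¬ G.Adj c x)) ∧
    (c ∉ M → (∀ x, x ∈ M ↔ x ≠ c) ∧ ∃ x, G.Adj c x) := by
  obtain ⟨h1, h2⟩ := hM
  have hiso : ∀ x, x ≠ c → ¬ G.Adj c x → x ∈ M := by
    intro x hx hcx
    rcases h1 x with hh | ⟨v, hv, hvx⟩
    · exact hh
    · rcases h v x hvx with h' | h'
      · rw [h'] at hvx; exact absurd hvx hcx
      · exact absurd h' hx
  constructor
  · intro hc x
    constructor
    · intro hx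
      by_contra hcon
      push Not at hcon
      apply h2 x hx
      intro w
      by_cases hwx : w = x
      · right
        exact ⟨c, mem_erase.2 ⟨hcon.1.symm, hc⟩, by rw [hwx]; exact hcon.2⟩
      · rcases h1 w with hw | ⟨v, hv, hvw⟩
        · left; exact mem_erase.2 ⟨hwx, hw⟩
        · by_cases hvx : v = x
          · left
            rcases h v w hvw with h' | h'
            · exact absurd (hvx.symm.trans h') hcon.1
            · rw [h']; exact mem_erase.2 ⟨hcon.1.symm, hc⟩
          · right; exact ⟨v, mem_erase.2 ⟨hvx, hv⟩, hvw⟩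
    · rintro (hx | hx)
      · rw [hx]; exact hc
      · by_cases hxc : x = c
        · rw [hxc]; exact hc
        · exact hiso x hxc hx
  · intro hc
    constructor
    · intro x
      constructor
      · rintro hx rfl; exact hc hx
      · intro hx
        rcases h1 x with hh | ⟨v, hv, hvx⟩
        · exact hh
        · rcases h v x hvx with h' | h'
          · rw [h'] at hv; exact absurd hv hc
          · exact absurd h' hx
    · rcases h1 c with hh | ⟨v, hv, hvx⟩
      · exact absurd hh hc
      · exact ⟨v, hvx.symm⟩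

lemma star_unique {c : V} (h : StarAt G c) (M N : Finset V) (hM : IsMinDom G M)
    (hN : IsMinDom G N) (hMN : c ∈ M ↔ c ∈ N) : M = N := by
  have sM := star_struct G h M hM
  have sN := star_struct G h N hN
  ext x
  by_cases hc : c ∈ M
  · rw [sM.1 hc x, sN.1 (hMN.1 hc) x]
  · rw [(sM.2 hc).1 x, (sN.2 (fun h => hc (hMN.2 h))).1 x]

lemma star_adj {c : V} (h : StarAt G c) (M N : {M : Finset V // IsMinDom G M}) (hM : c ∈ M.1)
    (hN : c ∉ N.1) : (reconf G).Adj M N := by
  have sM := (star_struct G h M.1 M.2).1 hM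
  have sN := (star_struct G h N.1 N.2).2 hN
  refine ⟨?_, c, Or.inr ⟨?_, ?_⟩⟩
  · rintro rfl; exact hN hM
  · ext x
    rw [mem_sdiff, mem_singleton, sN.1]
    constructor
    · rintro ⟨_, h'⟩; by_contra hcon; exact h' hcon
    · rintro rfl; exact ⟨hM, by simp⟩
  · intro x hx
    rw [mem_sdiff, sN.1, sM] at hx
    push Not at hx
    exact hx.2.2

lemma star_isTree {c : V} (h : StarAt G c) : (reconf G).IsTree := by
  have hex : ∃ M, IsMinDom G M := by
    classical
    obtain ⟨J, -, -, -, hJ⟩ := exists_mis (G := G) (W := univ) (I := ∅) (by simp) (by simp)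
    exact ⟨J, (isM_univ G).1 hJ⟩
  obtain ⟨M0, hM0⟩ := hex
  have : Nonempty {M : Finset V // IsMinDom G M} := ⟨⟨M0, hM0⟩⟩
  have hcases : ∀ M N : {M : Finset V // IsMinDom G M}, M = N ∨ (reconf G).Adj M N := by
    intro M N
    by_cases h1 : c ∈ M.1 <;> by_cases h2 : c ∈ N.1
    · left; exact Subtype.ext (star_unique G h _ _ M.2 N.2 (by tauto))
    · right; exact star_adj G h M N h1 h2
    · right; exact (star_adj G h N M h2 h1).symm
    · left; exact Subtype.ext (star_unique G h _ _ M.2 N.2 (by tauto))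
  refine ⟨⟨?_⟩, ?_⟩
  · intro M N
    rcases hcases M N with h' | h'
    · rw [h']
    · exact h'.reachable
  · intro M p hp
    have h3 := hp.three_le_length
    have hnd := hp.support_nodup
    have hlen : p.support.tail.length = p.length := by simp
    classical
    have hinj : ∀ A ∈ p.support.tail, ∀ B ∈ p.support.tail, (c ∈ A.1 ↔ c ∈ B.1) → A = B :=
      fun A _ B _ hAB => Subtype.ext (star_unique G h _ _ A.2 B.2 hAB)
    have hcard : (p.support.tail.map (fun A => decide (c ∈ A.1))).Nodup := by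
      rw [List.nodup_map_iff_inj_on hnd]
      intro A hA B hB hAB
      exact hinj A hA B hB (by simpa using hAB)
    have := hcard.length_le_card
    rw [List.length_map, hlen] at this
    simp at this
    omega

/-- the description of `∃ c, StarAt G c` by an isomorphism -/
lemma starAt_iff_iso : (∃ c, StarAt G c) ↔ ∃ n m : ℕ,
    Nonempty (G ≃g ((⊥ : SimpleGraph (Fin n)) ⊕g completeBipartiteGraph (Fin 1) (Fin m))) := by
  classical
  constructor
  · rintro ⟨c, hc⟩
    let e1 := Fintype.equivFin {v : V // v ≠ c ∧ ¬ G.Adj c v}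
    let e2 := Fintype.equivFin {v : V // G.Adj c v}
    refine ⟨_, _, ⟨⟨⟨fun v => if h : v = c then .inr (.inl 0) else
        if h2 : G.Adj c v then .inr (.inr (e2 ⟨v, h2⟩)) else .inl (e1 ⟨v, h, h2⟩),
      Sum.elim (fun i => (e1.symm i).1) (Sum.elim (fun _ => c) (fun j => (e2.symm j).1)),
      ?_, ?_⟩, ?_⟩⟩⟩
    · intro v
      by_cases h : v = c
      · simp [h]
      · by_cases h2 : G.Adj c v
        · simp [h, h2]
        · simp [h, h2]
    · rintro (i | i | j)
      · have := (e1.symm i).2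
        simp [this.1, this.2]
      · have : i = 0 := Subsingleton.elim _ _
        simp [this]
      · have h := (e2.symm j).2
        have h' : (e2.symm j).1 ≠ c := h.ne'
        simp [h', h]
    · intro x y
      by_cases hx : x = c
      · by_cases hy : y = c
        · simp [hx, hy, completeBipartiteGraph]
        · by_cases hcy : G.Adj c y
          · simp [hx, hy, hcy, completeBipartiteGraph]
          · simp [hx, hy, hcy, completeBipartiteGraph]
      · by_cases hcx : G.Adj c x
        · by_cases hy : y = c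
          · simp [hx, hy, hcx, completeBipartiteGraph, hcx.symm]
          · have hxy : ¬ G.Adj x y := by
              intro h; rcases hc x y h with h' | h'
              · exact hx h'
              · exact hy h'
            by_cases hcy : G.Adj c y
            · simp [hx, hy, hcx, hcy, completeBipartiteGraph, hxy]
            · simp [hx, hy, hcx, hcy, hxy]
        · have hxy : ¬ G.Adj x y := by
            intro h; rcases hc x y h with h' | h'
            · exact hx h'
            · rw [h'] at h; exact hcx h.symm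
          by_cases hy : y = c
          · have hxy' : ¬ G.Adj x c := by rw [← hy]; exact hxy
            simp [hx, hy, hcx, hxy']
          · by_cases hcy : G.Adj c y
            · simp [hx, hy, hcx, hcy, hxy]
            · simp [hx, hy, hcx, hcy, hxy]
  · rintro ⟨n, m, ⟨f⟩⟩
    refine ⟨f.symm (.inr (.inl 0)), ?_⟩
    intro x y hxy
    have h := f.map_adj_iff.2 hxy
    rcases hfx : f x with i | i | j <;> rcases hfy : f y with i' | i' | j' <;>
      rw [hfx, hfy] at h <;> simp [completeBipartiteGraph] at h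
    · left
      rw [← f.symm_apply_apply x, hfx]
      have : i = 0 := Subsingleton.elim _ _
      rw [this]
    · right
      rw [← f.symm_apply_apply y, hfy]
      have : i' = 0 := Subsingleton.elim _ _
      rw [this]

variable [Nonempty V]

/-- If `G` is not the disjoint union of an edgeless graph and a star, then `R(G)` has a cycle of
length 3, 4 or 5. -/
theorem exists_short_cycle (h : ¬ ∃ c, StarAt G c) : ∃ (M : _) (p : (reconf G).Walk M M),
    p.IsCycle ∧ (p.length = 3 ∨ p.length = 4 ∨ p.length = 5) := by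
  apply cycle_of_short
  apply short_of_not_star
  rintro ⟨c, hc⟩
  exact h ⟨c, fun x y hxy => hc x (mem_univ _) y (mem_univ _) hxy⟩

end main

end Pool.Q273.MDR
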