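import Pool.Agent.Q273.MDR.CaseC

namespace Pool.Q273.MDR

open Finset Classical

variable {V : Type*} {G : SimpleGraph V}

/-- every `W` whose edges do not all share a vertex has a short cycle in its reconfiguration
graph -/
theorem short_of_not_star [Nonempty V] (W : Finset V) (hW : ¬ Star G W) : Short G W := by
  induction' hn : W.card using Nat.strong_induction_on with n ih generalizing W
  subst hn
  by_contra hns
  have hstar : ∀ v ∈ W, Star G (del G v W) := by
    intro v hv
    by_contra hcon
    have hlt : (del G v W).card < W.card := by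
      apply card_lt_card
      refine ⟨del_subset, fun hh => ?_⟩
      exact (mem_del.1 (hh hv)).2.1 rfl
    exact hns (short_lift hv (ih _ hlt _ hcon rfl))
  have hni : ∀ v ∈ W, ∃ w ∈ W, G.Adj v w := by
    intro v hv
    by_contra hcon
    push Not at hcon
    obtain ⟨c, hc⟩ := hstar v hv
    apply hW
    refine ⟨c, fun x hx y hy hxy => ?_⟩
    refine hc x (mem_del.2 ⟨hx, ?_, hcon x hx⟩) y (mem_del.2 ⟨hy, ?_, hcon y hy⟩) hxy
    · rintro rfl; exact hcon y hy hxy
    · rintro rfl; exact hcon x hx hxy.symm
  -- no dominating vertex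
  have hnd : ∀ v ∈ W, ∃ w ∈ W, w ≠ v ∧ ¬ G.Adj v w := by
    intro v hv
    by_contra hcon
    push Not at hcon
    have hedge : ∃ x ∈ W.erase v, ∃ y ∈ W.erase v, G.Adj x y := by
      by_contra hcon2
      push Not at hcon2
      apply hW
      refine ⟨v, fun x hx y hy hxy => ?_⟩
      by_contra hne
      push Not at hne
      exact hcon2 x (mem_erase.2 ⟨hne.1, hx⟩) y (mem_erase.2 ⟨hne.2, hy⟩) hxy
    obtain ⟨P, Q, hP, hQ, hPQ⟩ := exists_edge (G := G) (W.erase v) hedge
    obtain ⟨x0, hx0, -⟩ := hedge
    have hlift : ∀ M, IsM G (W.erase v) M → IsM G W M ∧ Rel G {v} M := by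
      intro M hM
      have hvM : v ∉ M := fun h => (mem_erase.1 (hM.1 h)).1 rfl
      constructor
      · refine ⟨hM.1.trans (erase_subset _ _), ?_, ?_⟩
        · intro w hw
          by_cases hwv : w = v
          · right
            have : ∃ m, m ∈ M := by
              rcases hM.2.1 x0 hx0 with h | ⟨m, hm, _⟩
              · exact ⟨x0, h⟩
              · exact ⟨m, hm⟩
            obtain ⟨m, hm⟩ := this
            have hm' := mem_erase.1 (hM.1 hm)
            refine ⟨m, hm, ?_⟩
            rw [hwv]
            exact (hcon m hm'.2 hm'.1).symm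
          · exact hM.2.1 w (mem_erase.2 ⟨hwv, hw⟩)
        · intro u hu hd
          exact hM.2.2 u hu (fun w hw => hd w (mem_erase.1 hw).2)
      · right
        apply R1.intro v
        · simp
        · exact hvM
        · intro x hx hne
          rw [mem_singleton] at hx
          exact absurd hx hne
        · intro x hx _
          have := mem_erase.1 (hM.1 hx)
          exact hcon x this.2 this.1
    have hv1 : IsM G W {v} := by
      apply isM_of_indep
      · simpa using hv
      · intro a ha b hb hab
        rw [mem_singleton] at ha hb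
        subst ha; subst hb
        exact G.loopless.irrefl _ hab
      · intro w hw
        by_cases hwv : w = v
        · left; simp [hwv]
        · right; exact ⟨v, by simp, hcon w hw hwv⟩
    exact hns (Or.inl ⟨{v}, P, Q, hv1, (hlift P hP).1, (hlift Q hQ).1, (hlift P hP).2, hPQ,
      (hlift Q hQ).2.symm⟩)
  have C : Ctx G W := ⟨hstar, hnd, hni, hns⟩
  by_cases hE : ∃ s ∈ W, ∃ x ∈ del G s W, ∃ y ∈ del G s W, G.Adj x y
  · obtain ⟨s, hs, x, hx, y, hy, hxy⟩ := hE
    -- the centre
    obtain ⟨c, l, hcm, hlm, hcl, hcen⟩ : ∃ c l, c ∈ del G s W ∧ l ∈ del G s W ∧ G.Adj c l ∧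
        ∀ x ∈ del G s W, ∀ y ∈ del G s W, G.Adj x y → x = c ∨ y = c := by
      obtain ⟨c, hc⟩ := hstar s hs
      rcases hc x hx y hy hxy with h | h
      · subst h; exact ⟨x, y, hx, hy, hxy, hc⟩
      · subst h; exact ⟨y, x, hy, hx, hxy.symm, hc⟩
    obtain ⟨hcW, hcs, hsc⟩ := mem_del.1 hcm
    obtain ⟨hlW, hls, hsl⟩ := mem_del.1 hlm
    have htw : ∀ i ∈ del G s W, i ≠ c → ¬ G.Adj c i → ∀ w ∈ W, (G.Adj i w ↔ G.Adj s w) := by
      intro i hi hic hci w hw
      obtain ⟨hiW, his, hsi⟩ := mem_del.1 hi
      constructor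
      · intro hiw
        by_contra hsw
        have hwm : w ∈ del G s W := by
          refine mem_del.2 ⟨hw, ?_, hsw⟩
          rintro rfl; exact hsi hiw.symm
        rcases hcen i hi w hwm hiw with h | h
        · exact hic h
        · rw [h] at hiw; exact hci hiw.symm
      · intro hsw
        by_contra hiw
        have hil : ¬ G.Adj i l := by
          intro h
          rcases hcen i hi l hlm h with h' | h'
          · exact hic h'
          · rw [h'] at hcl; exact G.loopless.irrefl _ hcl
        refine (hstar i hiW).no_disj (x := s) (y := w) (z := c) (w := l)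
          (mem_del.2 ⟨hs, his.symm, fun h => hsi h.symm⟩) (mem_del.2 ⟨hw, ?_, hiw⟩)
          (mem_del.2 ⟨hcW, hic.symm, fun h => hci h.symm⟩) (mem_del.2 ⟨hlW, ?_, hil⟩) hsw hcl
          hcs.symm hls.symm ?_ ?_
        · rintro rfl; exact hsi hsw
        · rintro rfl; exact hci hcl
        · rintro rfl; exact hsc hsw
        · rintro rfl; exact hsl hsw
    by_cases hN : ∀ w ∈ W, G.Adj s w → G.Adj c w
    · -- Case D at `c`
      have hT : ∀ t ∈ del G c W, ∀ w ∈ W, (G.Adj t w ↔ G.Adj s w) := by
        intro t ht
        obtain ⟨htW, htc, hct⟩ := mem_del.1 ht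
        by_cases hts : t = s
        · intro w _; rw [hts]
        · exact htw t (mem_del.2 ⟨htW, hts, fun h => hct (hN t htW h)⟩) htc hct
      refine caseD C hcW (t := s) (mem_del.2 ⟨hs, hcs.symm, fun h => hsc h.symm⟩) ?_ hT
      intro a ha b hb hab
      have hb' := mem_del.1 hb
      exact hb'.2.2 (hN b hb'.1 ((hT a ha b hb'.1).1 hab))
    · push Not at hN
      obtain ⟨p, hp, hsp, hcp⟩ := hN
      by_cases hI : ∃ i ∈ del G s W, i ≠ c ∧ ¬ G.Adj c i
      · obtain ⟨i, hi, hic, hci⟩ := hI
        obtain ⟨hiW, his, hsi⟩ := mem_del.1 hi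
        have hpc : p ≠ c := by rintro rfl; exact hsc hsp
        have hpuniq : ∀ p' ∈ W, G.Adj s p' → ¬ G.Adj c p' → p' = p := by
          intro p' hp' hsp' hcp'
          by_contra hne
          refine (hstar c hcW).no_disj (x := s) (y := p) (z := i) (w := p')
            (mem_del.2 ⟨hs, hcs.symm, fun h => hsc h.symm⟩) (mem_del.2 ⟨hp, hpc, hcp⟩)
            (mem_del.2 ⟨hiW, hic, hci⟩) (mem_del.2 ⟨hp', ?_, hcp'⟩) hsp
            ((htw i hi hic hci p' hp').2 hsp') his.symm ?_ ?_ (fun h => hne h.symm)
          · rintro rfl; exact hsc hsp'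
          · exact hsp'.ne
          · rintro rfl; exact hsi hsp
        have hcov : ∀ w ∈ W, w = p ∨ w = c ∨ G.Adj p w ∨ G.Adj c w := by
          intro w hw
          by_cases h1 : G.Adj c w
          · tauto
          by_cases h2 : G.Adj s w
          · left; exact hpuniq w hw h2 h1
          by_cases h3 : w = c
          · tauto
          by_cases h4 : w = s
          · right; right; left; rw [h4]; exact hsp.symm
          · right; right; left
            exact ((htw w (mem_del.2 ⟨hw, h4, h2⟩) h3 h1 p hp).2 hsp).symm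
        by_cases hL : ∃ l' ∈ W, G.Adj c l' ∧ ¬ G.Adj p l'
        · exact caseC C (s := p) (c := c) ⟨hp, hcW, hpc, fun h => hcp h.symm, hcov,
            ⟨s, hs, hsp.symm, fun h => hsc h.symm⟩, hL⟩
        · push Not at hL
          have hT : ∀ t ∈ del G p W, t = c := by
            intro t ht
            obtain ⟨htW, htp, hpt⟩ := mem_del.1 ht
            rcases hcov t htW with h | h | h | h
            · exact absurd h htp
            · exact h
            · exact absurd h hpt
            · exact absurd (hL t htW h) hpt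
          refine caseD C hp (t := c) (mem_del.2 ⟨hcW, hpc.symm, fun h => hcp h.symm⟩) ?_ ?_
          · intro a ha b hb hab
            rw [hT a ha, hT b hb] at hab
            exact G.loopless.irrefl _ hab
          · intro a ha w _
            rw [hT a ha]
      · push Not at hI
        refine caseC C (s := s) (c := c) ⟨hs, hcW, hcs.symm, hsc, ?_, ⟨p, hp, hsp, hcp⟩,
          ⟨l, hlW, hcl, hsl⟩⟩
        intro w hw
        by_cases h1 : w = s
        · tauto
        by_cases h2 : w = c
        · tauto
        by_cases h3 : G.Adj s w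
        · tauto
        · right; right; right; exact hI w (mem_del.2 ⟨hw, h1, h3⟩) h2
  · push Not at hE
    -- complete multipartite
    have hne : ∃ c, c ∈ W := by
      by_contra hcon
      push Not at hcon
      exact hW ⟨Classical.arbitrary V, fun x hx => absurd hx (hcon x)⟩
    obtain ⟨c, hc⟩ := hne
    obtain ⟨t, htW, htc, hct⟩ := hnd c hc
    have htm : t ∈ del G c W := mem_del.2 ⟨htW, htc, hct⟩
    have htr : ∀ a ∈ del G c W, ∀ b ∈ del G c W, ∀ w ∈ W, G.Adj a w → G.Adj b w := by
      intro a ha b hb w hw haw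
      by_contra hbw
      have ha' := mem_del.1 ha
      have hb' := mem_del.1 hb
      by_cases hab : a = b
      · rw [hab] at haw; exact hbw haw
      refine hE b hb'.1 a (mem_del.2 ⟨ha'.1, hab, fun h => hE c hc b hb a ha h⟩) w
        (mem_del.2 ⟨hw, ?_, hbw⟩) haw
      rintro rfl
      exact hE c hc a ha w hb haw
    exact caseD C hc htm (fun a ha b hb => hE c hc a ha b hb)
      (fun a ha w hw => ⟨htr a ha t htm w hw, htr t htm a ha w hw⟩)

end Pool.Q273.MDR
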